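import Mathlib
import Pool.Agent.H469R10.HO.N4
import Pool.Agent.H469R10.HO.Stmts7
import Pool.Agent.H82R3.Task469L
import Pool.Agent.H99R3.Task469M
import Pool.Agent.H5R3.Task469N
import Pool.Agent.H180R3.Task469Q
import Pool.Agent.H54R3.Task469O

set_option autoImplicit false

/-!
# Linear version of the fixed point construction (no Euler product, every exponent `lam ≥ 1`)
-/

open Finset MeasureTheory Filter

namespace Pool.Agent.W168.Lin

open Pool.Agent.H469R10.HO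
open Pool.Agent.H54R3.T469O (PP_add PP_sub PP_const_mul PP_cos PP_hasSum DD_abs chi_zero chi_one)

/-- the integer whose frequency is near the node `j` -/
noncomputable def nn (c lam : ℝ) (j : ℕ) : ℕ := ⌈(xx j / c) ^ lam⌉₊

/-- its frequency -/
noncomputable def om (c lam : ℝ) (j : ℕ) : ℝ := uu c lam (nn c lam j)

variable {c lam : ℝ}

lemma om_near (hc : 0 < c) (hlam : 1 ≤ lam) (j : ℕ) : |om c lam j - xx j| ≤ c := by
  have hl0 : 0 < lam := by linarith
  have hx := xx_nonneg j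
  have hxc : 0 ≤ xx j / c := by positivity
  set y : ℝ := (xx j / c) ^ lam with hy
  have hy0 : 0 ≤ y := by positivity
  have h1 : y ≤ nn c lam j := Nat.le_ceil _
  have h2 : (nn c lam j : ℝ) < y + 1 := Nat.ceil_lt_add_one hy0
  have hyl : y ^ (1 / lam) = xx j / c := by
    rw [hy, ← Real.rpow_mul hxc, mul_one_div_cancel hl0.ne', Real.rpow_one]
  have h3 : xx j / c ≤ (nn c lam j : ℝ) ^ (1 / lam) := by
    rw [← hyl]
    exact Real.rpow_le_rpow hy0 h1 (by positivity)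
  have h4 : (nn c lam j : ℝ) ^ (1 / lam) ≤ xx j / c + 1 := by
    calc (nn c lam j : ℝ) ^ (1 / lam) ≤ (y + 1) ^ (1 / lam) :=
          Real.rpow_le_rpow (Nat.cast_nonneg _) h2.le (by positivity)
      _ ≤ y ^ (1 / lam) + 1 ^ (1 / lam) :=
          Real.rpow_add_le_add_rpow hy0 zero_le_one (by positivity) (by rw [div_le_one hl0]; exact hlam)
      _ = xx j / c + 1 := by rw [hyl, Real.one_rpow]
  unfold om uu
  have h5 : c * (xx j / c) = xx j := by field_simp
  have h6 : c * (xx j / c) ≤ c * (nn c lam j : ℝ) ^ (1 / lam) := mul_le_mul_of_nonneg_left h3 hc.le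
  have h7 : c * (nn c lam j : ℝ) ^ (1 / lam) ≤ c * (xx j / c + 1) := mul_le_mul_of_nonneg_left h4 hc.le
  rw [abs_le]
  constructor
  · linarith
  · rw [mul_add, h5] at h7; linarith

lemma xx_zero : xx 0 = 0 := by simp [xx]

lemma xx_gap {i j : ℕ} (h : i < j) : xx i + 1 ≤ xx j := by
  unfold xx
  have hpi := Real.pi_gt_three
  have h1 : (i : ℝ) + 1 ≤ j := by exact_mod_cast h
  nlinarith

lemma nn_zero (hlam : 1 ≤ lam) : nn c lam 0 = 0 := by
  unfold nn
  rw [xx_zero, zero_div, Real.zero_rpow (by linarith), Nat.ceil_zero]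

lemma om_zero (hlam : 1 ≤ lam) : om c lam 0 = 0 := by
  unfold om
  rw [nn_zero hlam, uu_zero hlam]

lemma nn_inj (hc : 0 < c) (hc1 : c ≤ 1 / 4) (hlam : 1 ≤ lam) : Function.Injective (nn c lam) := by
  intro i j hij
  by_contra hne
  have key : ∀ i j : ℕ, i < j → nn c lam i = nn c lam j → False := by
    intro i j h hij
    have h1 := abs_le.1 (om_near hc hlam i)
    have h2 := abs_le.1 (om_near hc hlam j)
    have h3 : om c lam i = om c lam j := by unfold om; rw [hij]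
    have h4 := xx_gap h
    linarith [h1.1, h1.2, h2.1, h2.2]
  rcases Nat.lt_or_gt_of_ne hne with h | h
  · exact key i j h hij
  · exact key j i h hij.symm

lemma uu_one : uu c lam 1 = c := by
  unfold uu
  rw [Nat.cast_one, Real.one_rpow, mul_one]

lemma nn_ne_one (hc : 0 < c) (hc1 : c ≤ 1 / 4) (hlam : 1 ≤ lam) (j : ℕ) : nn c lam j ≠ 1 := by
  intro h
  rcases Nat.eq_zero_or_pos j with rfl | hj
  · rw [nn_zero hlam] at h; omega
  · have h1 := abs_le.1 (om_near hc hlam j)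
    have h3 : om c lam j = c := by unfold om; rw [h, uu_one]
    have h4 := xx_gap hj
    rw [xx_zero] at h4
    linarith [h1.1]

lemma QQ_id (w : ℕ → ℝ) (S : Finset ℕ) (β : ℕ → ℝ) : QQ w S id β = ∑ i ∈ S, w i * β i ^ 2 := by
  unfold QQ
  rw [image_id]
  apply sum_congr rfl
  intro y hy
  have : S.filter (fun i => id i = y) = {y} := by
    ext i
    simp only [mem_filter, id, mem_singleton]
    constructor
    · rintro ⟨_, h⟩; exact h
    · rintro rfl; exact ⟨hy, rfl⟩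
  rw [this, sum_singleton, sq_abs]

/-- the column of the node `i` -/
noncomputable def TL (c lam : ℝ) (m i j : ℕ) : ℝ :=
  - PP (fun t => Real.cos (om c lam i * t) - Real.cos (xx i * t)) j +
    PP (DD m (fun y => Real.cos (om c lam i * y))) j

lemma fin_bound {m : ℕ} {κ : ℝ} (hm : 1 ≤ m) (hc : 0 < c) (hc1 : c ≤ 1 / 4) (hlam : 1 ≤ lam)
    (hM : MBound m κ) (S : Finset ℕ) (β : ℕ → ℝ) (J : ℕ) :
    ∑ j ∈ range J, (1 + (j : ℝ)) ^ 2 * (∑ i ∈ S, β i * TL c lam m i j) ^ 2 ≤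
      (800 * c ^ 2 + 2 * κ) * ∑ i ∈ S, (1 + (i : ℝ)) ^ 2 * β i ^ 2 := by
  have hnear : ∀ i ∈ S, |om c lam i - xx (id i)| ≤ c := fun i _ => om_near hc hlam i
  have hnear1 : ∀ i ∈ S, |om c lam i - xx (id i)| ≤ 1 := fun i hi => (hnear i hi).trans (by linarith)
  have e1 : ∀ j, ∑ i ∈ S, β i * TL c lam m i j =
      - ∑ i ∈ S, β i * PP (fun t => Real.cos (om c lam i * t) - Real.cos (xx (id i) * t)) j +
      PP (DD m (fun y => ∑ i ∈ S, β i * Real.cos (om c lam i * y))) j := by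
    intro j
    rw [← PP_DD_sum hm, ← sum_neg_distrib, ← sum_add_distrib]
    apply sum_congr rfl
    intro i _
    unfold TL
    simp only [id]
    ring
  have hMS := (hM S id (om c lam) β hnear1).2 J
  have c2 := colR_two S id (om c lam) β hc.le (by linarith) hnear (range J)
  rw [QQ_id] at hMS c2
  simp_rw [e1]
  calc ∑ j ∈ range J, (1 + (j : ℝ)) ^ 2 * (- ∑ i ∈ S, β i * PP (fun t => Real.cos (om c lam i * t) - Real.cos (xx (id i) * t)) j +
      PP (DD m (fun y => ∑ i ∈ S, β i * Real.cos (om c lam i * y))) j) ^ 2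
        ≤ ∑ j ∈ range J, (2 * ((1 + (j : ℝ)) ^ 2 * (∑ i ∈ S, β i * PP (fun t => Real.cos (om c lam i * t) - Real.cos (xx (id i) * t)) j) ^ 2) +
          2 * ((1 + (j : ℝ)) ^ 2 * (PP (DD m (fun y => ∑ i ∈ S, β i * Real.cos (om c lam i * y))) j) ^ 2)) := by
          apply sum_le_sum; intro j _
          have h0 : 0 ≤ (1 + (j : ℝ)) ^ 2 := by positivity
          have h1 := mul_nonneg h0 (sq_nonneg ((∑ i ∈ S, β i * PP (fun t => Real.cos (om c lam i * t) - Real.cos (xx (id i) * t)) j) +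
            PP (DD m (fun y => ∑ i ∈ S, β i * Real.cos (om c lam i * y))) j))
          nlinarith
      _ ≤ 2 * (400 * c ^ 2 * ∑ i ∈ S, (1 + (i : ℝ)) ^ 2 * β i ^ 2) + 2 * (κ * ∑ i ∈ S, (1 + (i : ℝ)) ^ 2 * β i ^ 2) := by
          rw [sum_add_distrib, ← mul_sum, ← mul_sum]
          linarith
      _ = _ := by ring

lemma PP_abs_le {f : ℝ → ℝ} {M : ℝ} (hM : ∀ x ∈ Set.Icc (0:ℝ) 2, |f x| ≤ M) (j : ℕ) :
    |PP f j| ≤ 2 * M := by
  have h1 : ‖∫ x in (0:ℝ)..2, f x * Real.cos (xx j * x)‖ ≤ M * |2 - 0| := by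
    apply intervalIntegral.norm_integral_le_of_norm_le_const
    intro x hx
    rw [Set.uIoc_of_le (by norm_num)] at hx
    rw [Real.norm_eq_abs, abs_mul]
    have h2 := hM x ⟨hx.1.le, hx.2⟩
    have h3 := Real.abs_cos_le_one (xx j * x)
    have h4 : 0 ≤ M := (abs_nonneg _).trans h2
    calc |f x| * |Real.cos (xx j * x)| ≤ M * 1 := by gcongr
      _ = M := mul_one _
  unfold PP
  rw [abs_div]
  have h5 := ww_ge j
  rw [abs_of_pos (by linarith : 0 < ww j), div_le_iff₀ (by linarith)]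
  rw [Real.norm_eq_abs] at h1
  have h6 : |(2:ℝ) - 0| = 2 := by norm_num
  rw [h6] at h1
  have h7 : 0 ≤ M := (abs_nonneg _).trans (hM 0 ⟨le_rfl, by norm_num⟩)
  nlinarith

lemma TL_abs_le {m : ℕ} (hm : 1 ≤ m) (i j : ℕ) : |TL c lam m i j| ≤ 4 + 2 * 2 ^ (2 * m) := by
  unfold TL
  refine (abs_add_le _ _).trans ?_
  rw [abs_neg]
  have h1 : |PP (fun t => Real.cos (om c lam i * t) - Real.cos (xx i * t)) j| ≤ 2 * 2 := by
    apply PP_abs_le
    intro x _
    refine (abs_sub _ _).trans ?_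
    have := Real.abs_cos_le_one (om c lam i * x)
    have := Real.abs_cos_le_one (xx i * x)
    linarith
  have h2 : |PP (DD m (fun y => Real.cos (om c lam i * y))) j| ≤ 2 * 2 ^ (2 * m) := by
    apply PP_abs_le
    intro x hx
    have h3 := DD_abs (m := m) (f := fun y => Real.cos (om c lam i * y)) (C := 1)
      (fun y => Real.abs_cos_le_one _) x
    have h4 : x ^ (2 * m) ≤ 2 ^ (2 * m) := pow_le_pow_left₀ hx.1 hx.2 _
    linarith
  linarith

lemma summable_abs {d : ℕ → ℝ} {D : ℝ} (hd : ∀ J : ℕ, ∑ j ∈ range J, (1 + (j : ℝ)) ^ 2 * d j ^ 2 ≤ D) :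
    Summable (fun i => |d i|) := by
  have h1 : Summable (fun j : ℕ => (1 + (j : ℝ)) ^ 2 * d j ^ 2) :=
    summable_of_sum_range_le (fun j => by positivity) hd
  have h2 : Summable (fun j : ℕ => 1 / (1 + (j : ℝ)) ^ 2) := by
    have := (summable_nat_add_iff 1).2 (Real.summable_one_div_nat_pow.2 (le_refl 2))
    refine this.congr fun j => ?_
    push_cast
    rw [add_comm]
  refine Summable.of_nonneg_of_le (fun _ => abs_nonneg _) (fun i => ?_) (h1.add h2)
  have h3 : 0 < 1 + (i : ℝ) := by positivity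
  have h4 : 0 ≤ ((1 + (i : ℝ)) * |d i| - 1 / (1 + (i : ℝ))) ^ 2 := sq_nonneg _
  have h5 : ((1 + (i : ℝ)) * |d i| - 1 / (1 + (i : ℝ))) ^ 2 =
      (1 + (i : ℝ)) ^ 2 * d i ^ 2 - 2 * |d i| + 1 / (1 + (i : ℝ)) ^ 2 := by
    rw [sub_sq, mul_pow, sq_abs]
    field_simp
  have := abs_nonneg (d i)
  linarith

lemma summable_TL {m : ℕ} (hm : 1 ≤ m) {d : ℕ → ℝ} (hd : Summable (fun i => |d i|)) (j : ℕ) :
    Summable (fun i => d i * TL c lam m i j) := by
  refine Summable.of_norm_bounded (hd.mul_right (4 + 2 * 2 ^ (2 * m))) fun i => ?_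
  rw [Real.norm_eq_abs, abs_mul]
  exact mul_le_mul_of_nonneg_left (TL_abs_le hm i j) (abs_nonneg _)

lemma inf_bound {m : ℕ} {κ : ℝ} (hm : 1 ≤ m) (hc : 0 < c) (hc1 : c ≤ 1 / 4) (hlam : 1 ≤ lam) (hκ : 0 ≤ κ)
    (hM : MBound m κ) {d : ℕ → ℝ} {D : ℝ}
    (hd : ∀ J : ℕ, ∑ j ∈ range J, (1 + (j : ℝ)) ^ 2 * d j ^ 2 ≤ D) (J : ℕ) :
    ∑ j ∈ range J, (1 + (j : ℝ)) ^ 2 * (∑' i, d i * TL c lam m i j) ^ 2 ≤
      (800 * c ^ 2 + 2 * κ) * D := by
  have hs := fun j => (summable_TL (c := c) (lam := lam) hm (summable_abs hd) j).hasSum.tendsto_sum_nat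
  have ht : Tendsto (fun N => ∑ j ∈ range J, (1 + (j : ℝ)) ^ 2 * (∑ i ∈ range N, d i * TL c lam m i j) ^ 2) atTop
      (nhds (∑ j ∈ range J, (1 + (j : ℝ)) ^ 2 * (∑' i, d i * TL c lam m i j) ^ 2)) :=
    tendsto_finsetSum _ fun j _ => ((hs j).pow 2).const_mul _
  refine le_of_tendsto ht (Eventually.of_forall fun N => ?_)
  refine (fin_bound hm hc hc1 hlam hM (range N) d J).trans ?_
  exact mul_le_mul_of_nonneg_left (hd N) (by positivity)

/-- the source has finite norm -/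
lemma src_bound {m : ℕ} (hm : 2 ≤ m) (c : ℝ) : ∃ R : ℝ, ∀ J : ℕ,
    ∑ j ∈ range J, (1 + (j : ℝ)) ^ 2 * (ss c m j) ^ 2 ≤ R := by
  have hs0 := Pool.Agent.H5R3.T469N.hasDeriv_s0 c
  have hs0B : ∀ x, |s0 c x| ≤ 2 := Pool.Agent.H5R3.T469N.abs_s0_le_two c
  have hs1B : ∀ x, |Pool.Agent.H5R3.T469N.s1 c x| ≤ |c| := Pool.Agent.H5R3.T469N.abs_s1_le' c
  have hc0 := Pool.Agent.H5R3.T469N.cont_s0 c
  have hc1 := Pool.Agent.H5R3.T469N.cont_s1 c
  have hD := Pool.Agent.H5R3.T469N.hasDeriv_DD m hm hs0 hs0B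
  have hDc := Pool.Agent.H5R3.T469N.cont_DD' m hm hc0 hc1 hs0B hs1B
  have hDc0 := Pool.Agent.H5R3.T469N.cont_DD m hm hc0 hs0B
  have hd : ∀ x, HasDerivAt (fun x => DD m (s0 c) x - s0 c x)
      (Pool.Agent.H5R3.T469N.DD' m (s0 c) (Pool.Agent.H5R3.T469N.s1 c) x - Pool.Agent.H5R3.T469N.s1 c x) x :=
    fun x => (hD x).sub (hs0 x)
  have hcd : Continuous (fun x => Pool.Agent.H5R3.T469N.DD' m (s0 c) (Pool.Agent.H5R3.T469N.s1 c) x -
      Pool.Agent.H5R3.T469N.s1 c x) := hDc.sub hc1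
  refine ⟨2 * (∫ t in (0:ℝ)..2, (DD m (s0 c) t - s0 c t) ^ 2) +
    ∫ t in (0:ℝ)..2, (Pool.Agent.H5R3.T469N.DD' m (s0 c) (Pool.Agent.H5R3.T469N.s1 c) t -
      Pool.Agent.H5R3.T469N.s1 c t) ^ 2, fun J => ?_⟩
  have h := Pool.Agent.H469R10.HO.weighted_bessel hd hcd (range J)
  have e : ∀ j, PP (fun x => DD m (s0 c) x - s0 c x) j = ss c m j := by
    intro j
    rw [PP_sub hDc0 hc0]
    unfold ss
    ring
  simp_rw [e] at h
  exact h

theorem fixed {m : ℕ} {κ : ℝ} (hm : 2 ≤ m) (hc : 0 < c) (hc1 : c ≤ 1 / 4) (hlam : 1 ≤ lam) (hκ : 0 ≤ κ)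
    (hM : MBound m κ) (hK : 800 * c ^ 2 + 2 * κ ≤ 1 / 4) :
    ∃ b : ℕ → ℝ, Summable (fun i => |b i|) ∧ ∀ j, b j = ss c m j + ∑' i, b i * TL c lam m i j := by
  obtain ⟨R, hR⟩ := src_bound hm c
  have hR0 : 0 ≤ R := by simpa using hR 0
  have hm1 : 1 ≤ m := by omega
  set ρ : ℝ := 2 * (R + 1) with hρ
  have hρ0 : 0 < ρ := by positivity
  obtain ⟨b, hb, hfix⟩ := Pool.Agent.H180R3.Q469.taskQ (fun j => (1 + (j : ℝ)) ^ 2) (fun j => by positivity)
    (fun b j => ss c m j + ∑' i, b i * TL c lam m i j) ρ (1 / 2) hρ0 (by norm_num) (by norm_num)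
    (fun J => by
      have : ∀ j, ss c m j + ∑' i : ℕ, (0:ℝ) * TL c lam m i j = ss c m j := by
        intro j; simp
      simp_rw [this]
      refine (hR J).trans ?_
      rw [hρ]
      nlinarith)
    (fun b b' hb hb' D hD hd J => by
      have hsb := summable_abs hb
      have hsb' := summable_abs hb'
      have e : ∀ j, (ss c m j + ∑' i, b i * TL c lam m i j) - (ss c m j + ∑' i, b' i * TL c lam m i j) =
          ∑' i, (b i - b' i) * TL c lam m i j := by
        intro j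
        have h1 := (summable_TL (c := c) (lam := lam) hm1 hsb j).tsum_sub (summable_TL (c := c) (lam := lam) hm1 hsb' j)
        have h2 : ∀ i, b i * TL c lam m i j - b' i * TL c lam m i j = (b i - b' i) * TL c lam m i j := fun i => by ring
        simp_rw [h2] at h1
        rw [h1]; ring
      simp_rw [e]
      refine (inf_bound hm1 hc hc1 hlam hκ hM hd J).trans ?_
      have hD2 : 0 ≤ D ^ 2 := sq_nonneg D
      nlinarith)
  exact ⟨b, summable_abs hb, hfix⟩

end Pool.Agent.W168.Lin
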