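import Mathlib
import Pool.Agent.W168.Lin

set_option autoImplicit false

/-!
# The boundary relation from the fixed point
-/

open Finset MeasureTheory Filter

namespace Pool.Agent.W168.Lin

open Pool.Agent.H469R10.HO
open Pool.Agent.H54R3.T469O (PP_add PP_sub PP_const_mul PP_cos PP_hasSum DD_abs chi_zero chi_one)

variable {c lam : ℝ}

theorem relation {m : ℕ} (hm : 2 ≤ m) {b : ℕ → ℝ} (hb : Summable fun i => |b i|)
    (hfix : ∀ j, b j = ss c m j + ∑' i, b i * TL c lam m i j) {x : ℝ} (hx : 0 < x) :
    s0 c x + ∑' i, b i * Real.cos (om c lam i * x) =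
      x ^ (2 * m) * (s0 c x⁻¹ + ∑' i, b i * Real.cos (om c lam i * x⁻¹)) := by
  have hm1 : 1 ≤ m := by omega
  let G : ℝ → ℝ := fun x => ∑' n, b n * Real.cos (om c lam n * x)
  have hGb : ∀ n x, ‖b n * Real.cos (om c lam n * x)‖ ≤ |b n| := by
    intro n x
    rw [Real.norm_eq_abs, abs_mul]
    calc |b n| * |Real.cos (om c lam n * x)| ≤ |b n| * 1 := by
          gcongr
          exact Real.abs_cos_le_one _
      _ = |b n| := mul_one _
  have hGs : ∀ x, HasSum (fun n => b n * Real.cos (om c lam n * x)) (G x) := fun x =>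
    (Summable.of_norm_bounded hb (fun n => hGb n x)).hasSum
  have hGc : Continuous G := continuous_tsum (fun n => by fun_prop) hb hGb
  have hGB : ∀ x, |G x| ≤ ∑' n, |b n| := fun x => tsum_of_norm_bounded hb.hasSum (fun n => hGb n x)
  have hs0c : Continuous (s0 c) := by unfold s0; fun_prop
  have hs0B : ∀ x, |s0 c x| ≤ 2 := by
    intro x
    unfold s0
    rw [abs_le]
    constructor <;> linarith [Real.neg_one_le_cos (c * x), Real.cos_le_one (c * x)]
  let h : ℝ → ℝ := fun x => s0 c x + G x
  have hhc : Continuous h := hs0c.add hGc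
  have hhB : ∀ x, |h x| ≤ 2 + ∑' n, |b n| := fun x =>
    (abs_add_le _ _).trans (add_le_add (hs0B x) (hGB x))
  have hP : ∀ j, PP h j = PP (DD m h) j := by
    intro j
    have H1 : HasSum (fun n => b n * PP (fun t => Real.cos (om c lam n * t)) j) (PP G j) := by
      have h1 := PP_hasSum (F := fun n x => b n * Real.cos (om c lam n * x)) (a := fun n => |b n|)
        (fun n => by fun_prop) (fun n x _ => hGb n x) hb j (f := G) (fun x _ => hGs x)
      simpa only [PP_const_mul] using h1
    have hcosB : ∀ n x, |Real.cos (om c lam n * x)| ≤ 1 := fun n x => Real.abs_cos_le_one _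
    have hDc : ∀ n, Continuous (DD m (fun y => Real.cos (om c lam n * y))) := fun n =>
      DD_cont hm1 (by fun_prop) (hcosB n)
    have H2 : HasSum (fun n => b n * PP (DD m (fun y => Real.cos (om c lam n * y))) j) (PP (DD m G) j) := by
      have h1 := PP_hasSum (F := fun n x => b n * DD m (fun y => Real.cos (om c lam n * y)) x)
        (a := fun n => |b n| * 2 ^ (2 * m))
        (fun n => continuous_const.mul (hDc n)) (fun n x hx => by
          rw [abs_mul]
          have h2 := DD_abs (m := m) (hcosB n) x
          have h3 : x ^ (2 * m) ≤ 2 ^ (2 * m) := pow_le_pow_left₀ hx.1 hx.2 _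
          have h4 : |DD m (fun y => Real.cos (om c lam n * y)) x| ≤ 2 ^ (2 * m) := by linarith
          gcongr) (hb.mul_right _) j (f := DD m G) (fun x _ => by
          have h2 := (hGs x⁻¹).mul_left (chi x * x ^ (2 * m))
          have h3 : (fun n => b n * DD m (fun y => Real.cos (om c lam n * y)) x) =
              fun n => chi x * x ^ (2 * m) * (b n * Real.cos (om c lam n * x⁻¹)) := by
            funext n
            unfold DD
            ring
          rw [h3]
          exact h2)
      simpa only [PP_const_mul] using h1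
    have H3 : HasSum (fun n => if n = j then b j else 0) (b j) := hasSum_ite_eq j (b j)
    have H4 : HasSum (fun n => b n * TL c lam m n j) (- PP G j + PP (DD m G) j + b j) := by
      have h1 := ((H1.neg).add H2).add H3
      have h2 : (fun n => b n * TL c lam m n j) = fun n =>
          -(b n * PP (fun t => Real.cos (om c lam n * t)) j) +
            b n * PP (DD m (fun y => Real.cos (om c lam n * y))) j +
            (if n = j then b j else 0) := by
        funext n
        unfold TL
        rw [PP_sub (by fun_prop) (by fun_prop), PP_cos]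
        split_ifs with h0
        · subst h0; ring
        · ring
      rw [h2]
      exact h1
    have h5 := hfix j
    rw [H4.tsum_eq] at h5
    unfold ss at h5
    have h6 : PP h j = PP (s0 c) j + PP G j := PP_add hs0c hGc j
    have h7 : PP (DD m h) j = PP (DD m (s0 c)) j + PP (DD m G) j := by
      rw [← PP_add (DD_cont hm1 hs0c hs0B) (DD_cont hm1 hGc hGB)]
      congr 1
      funext x
      simp only [DD, h]
      ring
    linarith
  have hDhc : Continuous (DD m h) := DD_cont hm1 hhc hhB
  have hL := Pool.Agent.H82R3.T469L.taskL (fun x => h x - DD m h x) (hhc.sub hDhc) (fun j => by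
    have h1 : PP (fun x => h x - DD m h x) j = 0 := by
      rw [PP_sub hhc hDhc, hP j, sub_self]
    unfold PP at h1
    have h2 : ww j ≠ 0 := by have := ww_ge j; positivity
    exact (div_eq_zero_iff.mp h1).resolve_right h2)
  have hL' : ∀ x ∈ Set.Icc (0:ℝ) 2, h x = chi x * x ^ (2 * m) * h x⁻¹ := fun x hx => by
    have := hL x hx
    simp only [DD] at this
    linarith
  have hz1 : ∀ x ∈ Set.Icc (3 / 4 : ℝ) 2, h x = 0 := by
    intro x hx
    rw [hL' x ⟨by linarith [hx.1], hx.2⟩, chi_zero hx.1]
    ring
  have hz : ∀ x ∈ Set.Icc (1 / 2 : ℝ) 2, h x = 0 := by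
    intro x hx
    rcases le_total (3 / 4) x with h1 | h1
    · exact hz1 x ⟨h1, hx.2⟩
    · have hx0 : 0 < x := by linarith [hx.1]
      rw [hL' x ⟨by linarith [hx.1], hx.2⟩, hz1 x⁻¹ ?_, mul_zero]
      constructor
      · rw [le_inv_comm₀ (by norm_num) hx0]; linarith
      · rw [inv_le_comm₀ hx0 (by norm_num)]; linarith [hx.1]
  have hinv : ∀ x : ℝ, 0 < x → x ≤ 1 / 2 → h x = x ^ (2 * m) * h x⁻¹ := by
    intro x hx0 hx1
    rw [hL' x ⟨hx0.le, by linarith⟩, chi_one hx1, one_mul]
  change h x = x ^ (2 * m) * h x⁻¹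
  rcases le_total x (1 / 2) with h1 | h1
  · exact hinv x hx h1
  rcases le_total x 2 with h2 | h2
  · rw [hz x ⟨h1, h2⟩, hz x⁻¹ ?_, mul_zero]
    constructor
    · rw [le_inv_comm₀ (by norm_num) hx]; linarith
    · rw [inv_le_comm₀ hx (by norm_num)]; linarith
  · have h3 := hinv x⁻¹ (inv_pos.mpr hx) (by rw [inv_le_comm₀ hx (by norm_num)]; linarith)
    rw [inv_inv] at h3
    rw [h3, ← mul_assoc, ← mul_pow, mul_inv_cancel₀ hx.ne', one_pow, one_mul]

end Pool.Agent.W168.Lin
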