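import Mathlib
import Pool.Agent.W168.Lin2

set_option autoImplicit false

/-!
# The boundary relation as a series over the integers, for every `lam ≥ 1`
-/

open Finset MeasureTheory Filter

namespace Pool.Agent.W168.Lin

open Pool.Agent.H469R10.HO

/-- coefficients over the integers -/
noncomputable def al (c lam : ℝ) (b : ℕ → ℝ) (n : ℕ) : ℝ :=
  Function.extend (nn c lam) b (fun _ => 0) n + ((if n = 0 then -1 else 0) + (if n = 1 then 1 else 0))

variable {c lam : ℝ}

lemma hasSum_al (hc : 0 < c) (hc1 : c ≤ 1 / 4) (hlam : 1 ≤ lam) {b : ℕ → ℝ} (hb : Summable fun i => |b i|)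
    (x : ℝ) : HasSum (fun n => al c lam b n * Real.cos (uu c lam n * x))
      (s0 c x + ∑' i, b i * Real.cos (om c lam i * x)) := by
  have hinj := nn_inj hc hc1 hlam
  have hs : Summable (fun n => b n * Real.cos (om c lam n * x)) := by
    refine Summable.of_norm_bounded hb (fun n => ?_)
    rw [Real.norm_eq_abs, abs_mul]
    calc |b n| * |Real.cos (om c lam n * x)| ≤ |b n| * 1 := by
          gcongr
          exact Real.abs_cos_le_one _
      _ = |b n| := mul_one _
  have h1 : HasSum (fun n => Function.extend (nn c lam) b (fun _ => 0) n * Real.cos (uu c lam n * x))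
      (∑' i, b i * Real.cos (om c lam i * x)) := by
    rw [← hinj.hasSum_iff]
    · have e : ((fun n => Function.extend (nn c lam) b (fun _ => 0) n * Real.cos (uu c lam n * x)) ∘ nn c lam) =
          fun n => b n * Real.cos (om c lam n * x) := by
        funext i
        simp only [Function.comp, hinj.extend_apply]
        rfl
      rw [e]
      exact hs.hasSum
    · intro n hn
      rw [Function.extend_apply' _ _ _ (fun h => hn h), zero_mul]
  have h2 : HasSum (fun n => Function.extend (nn c lam) b (fun _ => 0) n * Real.cos (uu c lam n * x) +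
      ((if n = 0 then -1 else 0) + (if n = 1 then Real.cos (c * x) else 0)))
      ((∑' i, b i * Real.cos (om c lam i * x)) + (-1 + Real.cos (c * x))) :=
    h1.add ((hasSum_ite_eq 0 (-1)).add (hasSum_ite_eq 1 (Real.cos (c * x))))
  have e2 : (fun n => al c lam b n * Real.cos (uu c lam n * x)) =
      fun n => Function.extend (nn c lam) b (fun _ => 0) n * Real.cos (uu c lam n * x) +
      ((if n = 0 then -1 else 0) + (if n = 1 then Real.cos (c * x) else 0)) := by
    funext n
    unfold al
    by_cases h0 : n = 0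
    · subst h0
      simp [uu_zero hlam]
    · by_cases h3 : n = 1
      · subst h3
        simp [uu_one]
        ring
      · simp [h0, h3]
  rw [e2]
  convert h2 using 1
  unfold s0
  ring

lemma summable_al (hc : 0 < c) (hc1 : c ≤ 1 / 4) (hlam : 1 ≤ lam) {b : ℕ → ℝ} (hb : Summable fun i => |b i|) :
    Summable (fun n => |al c lam b n|) := by
  have hinj := nn_inj hc hc1 hlam
  have h1 : Summable (fun n => |Function.extend (nn c lam) b (fun _ => 0) n|) := by
    rw [← hinj.summable_iff]
    · refine hb.congr fun i => ?_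
      simp only [Function.comp, hinj.extend_apply]
    · intro n hn
      rw [Function.extend_apply' _ _ _ (fun h => hn h), abs_zero]
  have h2 : Summable (fun n : ℕ => (if n = 0 then (1:ℝ) else 0) + (if n = 1 then 1 else 0)) :=
    ((hasSum_ite_eq 0 (1:ℝ)).add (hasSum_ite_eq 1 (1:ℝ))).summable
  refine Summable.of_nonneg_of_le (fun _ => abs_nonneg _) (fun n => ?_) (h1.add h2)
  unfold al
  refine (abs_add_le _ _).trans (add_le_add le_rfl ?_)
  refine (abs_add_le _ _).trans (add_le_add ?_ ?_)
  · split_ifs <;> simp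
  · split_ifs <;> simp

lemma al_one (hc : 0 < c) (hc1 : c ≤ 1 / 4) (hlam : 1 ≤ lam) (b : ℕ → ℝ) : al c lam b 1 = 1 := by
  unfold al
  rw [Function.extend_apply']
  · simp
  · rintro ⟨i, hi⟩
    exact nn_ne_one hc hc1 hlam i hi

/-- For all large `m` and all `lam ≥ 1` the boundary relation of weight `-2m` has a nonzero solution with
frequencies `c n^{1/lam}`. -/
theorem exists_relation : ∃ m₀ : ℕ, ∀ m : ℕ, m₀ ≤ m → ∀ lam : ℝ, 1 ≤ lam → ∀ c : ℝ, 0 < c → c ≤ 1 / 100 →
    ∃ α : ℕ → ℝ, Summable (fun n => |α n|) ∧ α 1 = 1 ∧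
      ∀ x : ℝ, 0 < x → ∑' n, α n * Real.cos (uu c lam n * x) =
        x ^ (2 * m) * ∑' n, α n * Real.cos (uu c lam n / x) := by
  obtain ⟨m₀, hm₀⟩ := Pool.Agent.H99R3.M469.taskM (1 / 20) (by norm_num)
  refine ⟨max m₀ 2, fun m hm lam hlam c hc hc1 => ?_⟩
  have hm2 : 2 ≤ m := le_trans (le_max_right _ _) hm
  have hM : MBound m (1 / 20) := hm₀ m (le_trans (le_max_left _ _) hm)
  have hc4 : c ≤ 1 / 4 := by linarith
  obtain ⟨b, hb, hfix⟩ := fixed hm2 hc hc4 hlam (by norm_num) hM (by nlinarith)
  refine ⟨al c lam b, summable_al hc hc4 hlam hb, al_one hc hc4 hlam b, fun x hx => ?_⟩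
  have h8 : ∀ n, uu c lam n / x = uu c lam n * x⁻¹ := fun n => div_eq_mul_inv _ _
  simp_rw [h8]
  rw [(hasSum_al hc hc4 hlam hb x).tsum_eq, (hasSum_al hc hc4 hlam hb x⁻¹).tsum_eq]
  exact relation hm2 hb hfix hx

end Pool.Agent.W168.Lin
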