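import Mathlib
import Pool.Agent.W168.Lin3
import Pool.Agent.W505.PL
import Pool.Agent.H144R3.Task469F
import Pool.Agent.H853R3.Task469G

set_option autoImplicit false

/-!
# From the boundary relation to the entire Dirichlet series, every exponent `lam ≥ 1`
-/

namespace Pool.Agent.W168.Wrap

open Finset Pool.Agent.H469R10.HO Complex

/-- the shift in the gamma factor -/
noncomputable def mu (lam : ℝ) (m : ℕ) : ℝ := m + 1 - lam / 2

/-- the normalizing exponent -/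
noncomputable def kap (lam : ℝ) (m : ℕ) : ℝ := 1 / 2 + m / lam

theorem lam_kap {lam : ℝ} (hl : 0 < lam) (m : ℕ) : lam * kap lam m = 2 * m + 1 - mu lam m := by
  unfold kap mu
  field_simp
  ring

/-- coefficients -/
noncomputable def aa (lam : ℝ) (m : ℕ) (α : ℕ → ℝ) (n : ℕ) : ℝ := α n * (n : ℝ) ^ kap lam m

/-- complex coefficients -/
noncomputable def ff (lam : ℝ) (m : ℕ) (α : ℕ → ℝ) (n : ℕ) : ℂ := ((aa lam m α n : ℝ) : ℂ)

/-- The entire function. -/
noncomputable def FF (lam : ℝ) (m : ℕ) (c : ℝ) (Λ : ℂ → ℂ) (s : ℂ) : ℂ :=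
  Complex.exp ((Real.log c : ℂ) * ((lam : ℂ) * s + mu lam m - 2 * m - 1)) *
    (Λ ((lam : ℂ) * s + mu lam m) * (Complex.Gamma ((lam : ℂ) * s + mu lam m))⁻¹)

theorem FF_diff {lam : ℝ} {m : ℕ} {c : ℝ} {Λ : ℂ → ℂ} (hΛ : Differentiable ℂ Λ) :
    Differentiable ℂ (FF lam m c Λ) := by
  unfold FF
  have h1 : Differentiable ℂ (fun s : ℂ => (lam : ℂ) * s + mu lam m) := by fun_prop
  have h2 : Differentiable ℂ (fun z : ℂ => (Complex.Gamma z)⁻¹) :=
    Complex.differentiable_one_div_Gamma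
  have h3 := hΛ.comp h1
  have h4 := h2.comp h1
  have h5 : Differentiable ℂ (fun s : ℂ => Complex.exp ((Real.log c : ℂ) *
    ((lam : ℂ) * s + mu lam m - 2 * m - 1))) := by fun_prop
  exact h5.mul (h3.mul h4)

theorem uu_pos {c lam : ℝ} (hc : 0 < c) {n : ℕ} (hn : 1 ≤ n) : 0 < uu c lam n := by
  unfold uu
  have : (0 : ℝ) < n := by exact_mod_cast hn
  positivity

theorem uu_log {c lam : ℝ} (hc : 0 < c) {n : ℕ} (hn : 1 ≤ n) :
    Real.log (uu c lam n) = Real.log c + 1 / lam * Real.log n := by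
  unfold uu
  have h : (0 : ℝ) < n := by exact_mod_cast hn
  rw [Real.log_mul hc.ne' (Real.rpow_pos_of_pos h _).ne', Real.log_rpow h]

theorem uu_zero {c lam : ℝ} (hl : 0 < lam) : uu c lam 0 = 0 := by
  unfold uu
  rw [Nat.cast_zero, Real.zero_rpow (by positivity), mul_zero]

theorem pow_eq_exp {x : ℝ} (hx : 0 < x) (z : ℂ) :
    ((x : ℝ) : ℂ) ^ z = Complex.exp ((Real.log x : ℂ) * z) := by
  rw [Complex.cpow_def_of_ne_zero (by exact_mod_cast hx.ne'), Complex.ofReal_log hx.le]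

theorem FF_series {lam : ℝ} {m : ℕ} {c : ℝ} {α : ℕ → ℝ} {Λ : ℂ → ℂ} (hc : 0 < c) (hl : 0 < lam)
    {s : ℂ}
    (h : HasSum (fun n : ℕ => if n = 0 then 0 else
      ((α n * uu c lam n ^ (2 * m + 1) : ℝ) : ℂ) *
        ((uu c lam n : ℝ) : ℂ) ^ (-((lam : ℂ) * s + mu lam m)))
      (Λ ((lam : ℂ) * s + mu lam m) * (Complex.Gamma ((lam : ℂ) * s + mu lam m))⁻¹)) :
    LSeriesSummable (ff lam m α) s ∧ FF lam m c Λ s = LSeries (ff lam m α) s := by
  have h2 := h.mul_left (Complex.exp ((Real.log c : ℂ) *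
    ((lam : ℂ) * s + mu lam m - 2 * m - 1)))
  change HasSum _ (FF lam m c Λ s) at h2
  have e : (fun n : ℕ => Complex.exp ((Real.log c : ℂ) *
      ((lam : ℂ) * s + mu lam m - 2 * m - 1)) * (if n = 0 then 0 else
      ((α n * uu c lam n ^ (2 * m + 1) : ℝ) : ℂ) *
        ((uu c lam n : ℝ) : ℂ) ^ (-((lam : ℂ) * s + mu lam m)))) = LSeries.term (ff lam m α) s := by
    funext n
    rcases Nat.eq_zero_or_pos n with h0 | h0
    · subst h0
      simp [LSeries.term_zero]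
    · rw [if_neg h0.ne', LSeries.term_of_ne_zero h0.ne']
      have hn : (0 : ℝ) < n := by exact_mod_cast h0
      have hu := uu_pos (lam := lam) hc h0
      have hlc : ((lam : ℝ) : ℂ) ≠ 0 := by exact_mod_cast hl.ne'
      unfold ff aa
      have e1 : (uu c lam n) ^ (2 * m + 1) =
          Real.exp ((2 * m + 1) * (Real.log c + 1 / lam * Real.log n)) := by
        rw [← uu_log hc h0]
        conv_lhs => rw [← Real.exp_log hu]
        rw [← Real.exp_nat_mul]
        push_cast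
        rfl
      have e2 : (n : ℝ) ^ kap lam m = Real.exp (Real.log n * kap lam m) := Real.rpow_def_of_pos hn _
      have e3 : ((n : ℕ) : ℂ) ^ s = Complex.exp ((Real.log n : ℂ) * s) := by
        rw [show ((n : ℕ) : ℂ) = ((n : ℝ) : ℂ) by push_cast; rfl]
        exact pow_eq_exp hn s
      have e5 : ∀ a y : ℂ, a / Complex.exp y = a * Complex.exp (-y) := by
        intro a y; rw [Complex.exp_neg, div_eq_mul_inv]
      rw [pow_eq_exp hu, uu_log hc h0, e1, e2, e3, e5]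
      push_cast
      have e4 : ∀ a b c' d e : ℂ, Complex.exp a * (b * Complex.exp c' * Complex.exp d) =
          b * Complex.exp (a + c' + d) := by
        intro a b c' d _
        rw [Complex.exp_add, Complex.exp_add]
        ring
      rw [e4 _ _ _ _ 0, mul_assoc, ← Complex.exp_add]
      congr 2
      have hk : ((lam : ℝ) : ℂ) * ((kap lam m : ℝ) : ℂ) = 2 * m + 1 - mu lam m := by
        have := congrArg (fun x : ℝ => (x : ℂ)) (lam_kap hl m)
        push_cast at this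
        exact this
      have hk2 : ((kap lam m : ℝ) : ℂ) = (2 * m + 1 - mu lam m) / (lam : ℂ) := by
        rw [← hk]; field_simp
      rw [hk2]
      field_simp
      ring
  rw [e] at h2
  exact ⟨h2.summable, h2.tsum_eq.symm⟩

theorem growth_aux (a : ℝ) : ∃ K : ℝ, ∀ x : ℝ, 0 ≤ x → a * (1 + x) ^ 2 ≤ x ^ 3 + K := by
  refine ⟨|a| * (1 + (4 * |a| + 1)) ^ 2, fun x hx => ?_⟩
  have ha : a ≤ |a| := le_abs_self a
  have ha0 : 0 ≤ |a| := abs_nonneg a
  have h1 : a * (1 + x) ^ 2 ≤ |a| * (1 + x) ^ 2 := by gcongr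
  refine h1.trans ?_
  by_cases h : x ≤ 4 * |a| + 1
  · have h2 : |a| * (1 + x) ^ 2 ≤ |a| * (1 + (4 * |a| + 1)) ^ 2 := by gcongr
    have h3 : 0 ≤ x ^ 3 := by positivity
    linarith
  · push Not at h
    have hx1 : 1 ≤ x := by linarith
    have h2 : |a| * (1 + x) ^ 2 ≤ x ^ 3 := by
      calc |a| * (1 + x) ^ 2 ≤ |a| * (2 * x) ^ 2 := by
            gcongr
            linarith
        _ = (4 * |a|) * x ^ 2 := by ring
        _ ≤ x * x ^ 2 := by
            gcongr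
            linarith
        _ = x ^ 3 := by ring
    have h3 : 0 ≤ |a| * (1 + (4 * |a| + 1)) ^ 2 := by positivity
    linarith

theorem FF_growth {lam : ℝ} {m : ℕ} {c : ℝ} {Λ : ℂ → ℂ} {C : ℝ} (hl : 0 < lam)
    (h : ∀ z : ℂ, ‖Λ z * (Complex.Gamma z)⁻¹‖ ≤ Real.exp (C * (1 + ‖z‖) ^ 2)) :
    ∃ ρ C' : ℝ, ∀ s : ℂ, ‖FF lam m c Λ s‖ ≤ C' * Real.exp (‖s‖ ^ ρ) := by
  obtain ⟨U, hU⟩ : ∃ U : ℝ, U = lam + |mu lam m| + 2 * m + 2 := ⟨_, rfl⟩
  have hm : (0 : ℝ) ≤ m := Nat.cast_nonneg m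
  have hmu : 0 ≤ |mu lam m| := abs_nonneg _
  have hU0 : 0 ≤ U := by rw [hU]; positivity
  obtain ⟨K, hK⟩ := growth_aux (|Real.log c| * U + |C| * U ^ 2)
  refine ⟨3, Real.exp K, fun s => ?_⟩
  have hx : 0 ≤ ‖s‖ := norm_nonneg s
  have hK' := hK ‖s‖ hx
  unfold FF
  rw [norm_mul, Complex.norm_exp]
  have hlx := mul_nonneg hl.le hx
  have h0 : ‖(lam : ℂ) * s + mu lam m‖ ≤ lam * ‖s‖ + |mu lam m| := by
    refine (norm_add_le _ _).trans ?_
    rw [norm_mul, Complex.norm_real, Real.norm_of_nonneg hl.le, Complex.norm_real, Real.norm_eq_abs]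
  have h1 : (((Real.log c : ℂ) * ((lam : ℂ) * s + mu lam m - 2 * m - 1))).re ≤
      |Real.log c| * U * (1 + ‖s‖) ^ 2 := by
    refine (Complex.re_le_norm _).trans ?_
    rw [norm_mul, Complex.norm_real, Real.norm_eq_abs, mul_assoc]
    gcongr
    have h2 : ‖(lam : ℂ) * s + mu lam m - 2 * m - 1‖ ≤ (lam * ‖s‖ + |mu lam m|) + 2 * m + 1 := by
      refine (norm_sub_le _ _).trans ?_
      refine (add_le_add_left (norm_sub_le _ _) _).trans ?_
      refine (add_le_add_left (add_le_add_left h0 _) _).trans ?_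
      rw [norm_mul, Complex.norm_natCast, norm_one]
      norm_num
    refine h2.trans ?_
    rw [hU]
    nlinarith [mul_nonneg hm hx, mul_nonneg hl.le (mul_nonneg hx hx),
      mul_nonneg hm (mul_nonneg hx hx), mul_nonneg hmu hx, mul_nonneg hmu (mul_nonneg hx hx)]
  have h2 : ‖Λ ((lam : ℂ) * s + mu lam m) * (Complex.Gamma ((lam : ℂ) * s + mu lam m))⁻¹‖ ≤
      Real.exp (|C| * U ^ 2 * (1 + ‖s‖) ^ 2) := by
    refine (h _).trans ?_
    apply Real.exp_le_exp.2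
    have h4 : 1 + ‖(lam : ℂ) * s + mu lam m‖ ≤ U * (1 + ‖s‖) := by
      rw [hU]
      nlinarith [mul_nonneg hm hx, mul_nonneg hmu hx]
    calc C * (1 + ‖(lam : ℂ) * s + mu lam m‖) ^ 2
        ≤ |C| * (1 + ‖(lam : ℂ) * s + mu lam m‖) ^ 2 := by
          gcongr
          exact le_abs_self C
      _ ≤ |C| * (U * (1 + ‖s‖)) ^ 2 := by
          gcongr
      _ = _ := by ring
  calc Real.exp _ * ‖Λ ((lam : ℂ) * s + mu lam m) * (Complex.Gamma ((lam : ℂ) * s + mu lam m))⁻¹‖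
      ≤ Real.exp (|Real.log c| * U * (1 + ‖s‖) ^ 2) *
        Real.exp (|C| * U ^ 2 * (1 + ‖s‖) ^ 2) := by
        gcongr
    _ = Real.exp ((|Real.log c| * U + |C| * U ^ 2) * (1 + ‖s‖) ^ 2) := by
        rw [← Real.exp_add]; ring_nf
    _ ≤ Real.exp (‖s‖ ^ 3 + K) := Real.exp_le_exp.2 hK'
    _ = Real.exp K * Real.exp (‖s‖ ^ (3 : ℝ)) := by
        rw [Real.exp_add, mul_comm]
        congr 2
        rw [← Real.rpow_natCast]
        norm_num

/-- completed function -/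
theorem FF_completed {lam : ℝ} {m : ℕ} {c : ℝ} {Λ : ℂ → ℂ} {s : ℂ}
    (hs : ∀ n : ℕ, ((lam : ℝ) : ℂ) * s + mu lam m ≠ -(n : ℂ)) :
    FF lam m c Λ s * ((Real.exp (-(lam * Real.log c)) : ℝ) : ℂ) ^ s *
      Complex.Gamma (((lam : ℝ) : ℂ) * s + mu lam m) =
      ((Real.exp (Real.log c * (mu lam m - 2 * m - 1)) : ℝ) : ℂ) *
        Λ (((lam : ℝ) : ℂ) * s + mu lam m) := by
  have hG := Complex.Gamma_ne_zero hs
  rw [pow_eq_exp (Real.exp_pos _), Real.log_exp]
  unfold FF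
  have h1 : ((Real.exp (Real.log c * (mu lam m - 2 * m - 1)) : ℝ) : ℂ) =
      Complex.exp ((Real.log c : ℂ) * (((lam : ℝ) : ℂ) * s + mu lam m - 2 * m - 1)) *
      Complex.exp ((((-(lam * Real.log c) : ℝ)) : ℂ) * s) := by
    rw [← Complex.exp_add]
    push_cast
    congr 1
    ring
  rw [h1]
  have h2 := inv_mul_cancel₀ hG
  linear_combination (Complex.exp ((Real.log c : ℂ) *
    (((lam : ℝ) : ℂ) * s + mu lam m - 2 * m - 1)) *
    Complex.exp ((((-(lam * Real.log c) : ℝ)) : ℂ) * s) *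
    Λ (((lam : ℝ) : ℂ) * s + mu lam m)) * h2

end Pool.Agent.W168.Wrap
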