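import Mathlib

set_option autoImplicit false

/-!
# Two-colouring of hypergraphs with few edges (Seymour's linear algebra argument)
-/

open Finset

namespace Pool.Agent.W168.FT

variable {P Q : Type*} [DecidableEq P] [DecidableEq Q]

/-- If every nonempty subfamily `F'` covers more than `|F'|` points, then there is a colouring of the
points with two colours such that every edge contains both colours. -/
theorem two_col (I : Q → Finset P) (n : ℕ) : ∀ F : Finset Q, F.card = n →
    (∀ F' ⊆ F, F'.Nonempty → F'.card + 1 ≤ (F'.biUnion I).card) →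
    ∃ c : P → Bool, ∀ q ∈ F, (∃ p ∈ I q, c p = true) ∧ (∃ p ∈ I q, c p = false) := by
  induction n using Nat.strong_induction_on with
  | _ n ih =>
    intro F hn h
    rcases F.eq_empty_or_nonempty with rfl | hne
    · exact ⟨fun _ => true, by simp⟩
    set X := F.biUnion I with hX
    -- the linear map
    let L : (X → ℝ) →ₗ[ℝ] (F → ℝ) :=
      { toFun := fun w q => ∑ p : X, if (p : P) ∈ I q then w p else 0
        map_add' := by
          intro w w'
          funext q
          simp only [Pi.add_apply]
          rw [← Finset.sum_add_distrib]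
          refine Finset.sum_congr rfl fun p _ => ?_
          split_ifs <;> simp
        map_smul' := by
          intro a w
          funext q
          simp only [Pi.smul_apply, smul_eq_mul, RingHom.id_apply]
          rw [Finset.mul_sum]
          refine Finset.sum_congr rfl fun p _ => ?_
          split_ifs <;> simp }
    have hrank : Module.finrank ℝ (F → ℝ) < Module.finrank ℝ (X → ℝ) := by
      rw [Module.finrank_fintype_fun_eq_card, Module.finrank_fintype_fun_eq_card, Fintype.card_coe,
        Fintype.card_coe]
      exact h F (Finset.Subset.refl _) hne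
    have hker := LinearMap.ker_ne_bot_of_finrank_lt (f := L) hrank
    obtain ⟨w, hw, hw0⟩ := (Submodule.ne_bot_iff _).1 hker
    rw [LinearMap.mem_ker] at hw
    obtain ⟨p₀, hp₀⟩ := Function.ne_iff.1 hw0
    -- extension by zero
    let W : P → ℝ := fun p => if hp : p ∈ X then w ⟨p, hp⟩ else 0
    have hsum : ∀ q ∈ F, ∑ p ∈ I q, W p = 0 := by
      intro q hq
      have h1 := congrFun hw ⟨q, hq⟩
      change ∑ p : X, (if (p : P) ∈ I q then w p else 0) = 0 at h1
      have h2 : ∑ p : X, (if (p : P) ∈ I q then w p else 0) = ∑ p : X, (if (p : P) ∈ I q then W p else 0) := by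
        refine Finset.sum_congr rfl fun p _ => ?_
        have : W p = w p := by
          simp only [W]
          rw [dif_pos p.2]
        rw [this]
      rw [h2, Finset.sum_coe_sort X (fun p => if p ∈ I q then W p else 0), ← Finset.sum_filter] at h1
      have h3 : X.filter (fun p => p ∈ I q) = I q := by
        ext p
        simp only [Finset.mem_filter]
        constructor
        · rintro ⟨_, h⟩; exact h
        · intro h
          exact ⟨Finset.mem_biUnion.2 ⟨q, hq, h⟩, h⟩
      rwa [h3] at h1
    set F0 := F.filter (fun q => ∀ p ∈ I q, W p = 0) with hF0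
    have hF0sub : F0 ⊆ F := Finset.filter_subset _ _
    have hF0lt : F0.card < n := by
      rw [← hn]
      apply Finset.card_lt_card
      refine ⟨hF0sub, fun hsub => ?_⟩
      obtain ⟨q, hq, hpq⟩ := Finset.mem_biUnion.1 p₀.2
      have := (Finset.mem_filter.1 (hsub hq)).2 p₀ hpq
      simp only [W] at this
      rw [dif_pos p₀.2] at this
      exact hp₀ this
    obtain ⟨c0, hc0⟩ := ih F0.card hF0lt F0 rfl (fun F' hF' hne' => h F' (hF'.trans hF0sub) hne')
    refine ⟨fun p => if 0 < W p then true else if W p < 0 then false else c0 p, fun q hq => ?_⟩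
    by_cases hq0 : q ∈ F0
    · have hz := (Finset.mem_filter.1 hq0).2
      obtain ⟨⟨p, hp, hcp⟩, ⟨p', hp', hcp'⟩⟩ := hc0 q hq0
      refine ⟨⟨p, hp, ?_⟩, ⟨p', hp', ?_⟩⟩
      · simp [hz p hp, hcp]
      · simp [hz p' hp', hcp']
    · have hnz : ∃ p ∈ I q, W p ≠ 0 := by
        by_contra hcon
        push Not at hcon
        exact hq0 (Finset.mem_filter.2 ⟨hq, hcon⟩)
      obtain ⟨p, hp, hpos⟩ := Finset.exists_pos_of_sum_zero_of_exists_nonzero _ (hsum q hq) hnz
      obtain ⟨p', hp', hneg⟩ := Finset.exists_pos_of_sum_zero_of_exists_nonzero (fun p => - W p)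
        (by rw [Finset.sum_neg_distrib, hsum q hq, neg_zero]) (by
          obtain ⟨p, hp, h⟩ := hnz
          exact ⟨p, hp, neg_ne_zero.2 h⟩)
      refine ⟨⟨p, hp, ?_⟩, ⟨p', hp', ?_⟩⟩
      · simp [hpos]
      · have h1 : W p' < 0 := by linarith
        have h2 : ¬ 0 < W p' := by linarith
        simp [h1, h2]

end Pool.Agent.W168.FT
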