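import Mathlib

set_option autoImplicit false

/-!
# Cuts in 3-regular 3-uniform hypergraphs
-/

open Finset

namespace Pool.Agent.W168.FT

variable {P Q : Type*} [Fintype P] [DecidableEq P] [Fintype Q] [DecidableEq Q] (I : Q → Finset P)

/-- edges inside `X` -/
def EE (X : Finset P) : Finset Q := univ.filter (fun q => I q ⊆ X)
/-- edges meeting `X` -/
def NN (X : Finset P) : Finset Q := univ.filter (fun q => (I q ∩ X).Nonempty)
/-- crossing edges -/
def CR (X : Finset P) : Finset Q := NN I X \ EE I X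
/-- excess of points over inner edges -/
def ff (X : Finset P) : ℤ := (X.card : ℤ) - (EE I X).card
/-- excess of meeting edges over points -/
def hh (X : Finset P) : ℤ := ((NN I X).card : ℤ) - X.card

variable {I}

lemma mem_EE {X : Finset P} {q : Q} : q ∈ EE I X ↔ I q ⊆ X := by simp [EE]
lemma mem_NN {X : Finset P} {q : Q} : q ∈ NN I X ↔ (I q ∩ X).Nonempty := by simp [NN]
lemma mem_CR {X : Finset P} {q : Q} : q ∈ CR I X ↔ (I q ∩ X).Nonempty ∧ ¬ I q ⊆ X := by
  simp [CR, mem_EE, mem_NN]

/-- `3`-uniform and `3`-regular -/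
structure Reg (I : Q → Finset P) : Prop where
  uni : ∀ q, (I q).card = 3
  reg : ∀ p, (univ.filter (fun q => p ∈ I q)).card = 3

namespace Reg

variable (hR : Reg I)
include hR

lemma EE_sub_NN (X : Finset P) : EE I X ⊆ NN I X := by
  intro q hq
  rw [mem_EE] at hq
  rw [mem_NN, inter_eq_left.2 hq, ← card_pos, hR.uni]
  norm_num

lemma card_CR (X : Finset P) : ((CR I X).card : ℤ) = ff I X + hh I X := by
  unfold CR ff hh
  rw [card_sdiff_of_subset (hR.EE_sub_NN X), Nat.cast_sub (card_le_card (hR.EE_sub_NN X))]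
  ring

lemma sum_inter (X : Finset P) : ∑ q, (I q ∩ X).card = 3 * X.card := by
  have h1 : ∀ q, (I q ∩ X).card = ∑ p ∈ X, if p ∈ I q then 1 else 0 := by
    intro q
    rw [inter_comm, card_eq_sum_ones, ← filter_mem_eq_inter, sum_filter]
  simp_rw [h1]
  rw [sum_comm]
  have h2 : ∀ p ∈ X, ∑ q, (if p ∈ I q then 1 else 0) = 3 := by
    intro p _
    rw [← hR.reg p, card_eq_sum_ones, sum_filter]
  rw [sum_congr rfl h2, sum_const, smul_eq_mul, mul_comm]

lemma sum_CR_inter (X : Finset P) : ∑ q ∈ CR I X, ((I q ∩ X).card : ℤ) = 3 * ff I X := by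
  have h1 := hR.sum_inter X
  have h2 : ∑ q, (I q ∩ X).card = ∑ q ∈ NN I X, (I q ∩ X).card := by
    symm
    apply sum_subset (subset_univ _)
    intro q _ hq
    rw [mem_NN, not_nonempty_iff_eq_empty] at hq
    rw [hq, card_empty]
  have h3 := sum_sdiff (f := fun q => (I q ∩ X).card) (hR.EE_sub_NN X)
  have h4 : ∑ q ∈ EE I X, (I q ∩ X).card = 3 * (EE I X).card := by
    rw [sum_congr rfl (fun q hq => ?_), sum_const, smul_eq_mul, mul_comm]
    rw [inter_eq_left.2 (mem_EE.1 hq), hR.uni]
  have h5 : ∑ q ∈ CR I X, (I q ∩ X).card + 3 * (EE I X).card = 3 * X.card := by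
    rw [← h4, ← h1, h2]
    exact h3
  unfold ff
  have h6 : (∑ q ∈ CR I X, ((I q ∩ X).card : ℤ)) + 3 * (EE I X).card = 3 * X.card := by exact_mod_cast h5
  linarith

lemma sum_CR_sdiff (X : Finset P) : ∑ q ∈ CR I X, ((I q \ X).card : ℤ) = 3 * hh I X := by
  have h1 : ∀ q, ((I q \ X).card : ℤ) = 3 - (I q ∩ X).card := by
    intro q
    have := card_sdiff_add_card_inter (I q) X
    rw [hR.uni] at this
    have h : (((I q \ X).card : ℤ)) + (I q ∩ X).card = 3 := by exact_mod_cast this
    linarith
  simp_rw [h1]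
  rw [sum_sub_distrib, hR.sum_CR_inter, sum_const, nsmul_eq_mul, hR.card_CR]
  ring

lemma ff_nonneg (X : Finset P) : 0 ≤ ff I X := by
  have := hR.sum_CR_inter X
  have h2 : 0 ≤ ∑ q ∈ CR I X, ((I q ∩ X).card : ℤ) := sum_nonneg fun _ _ => by positivity
  linarith

lemma hh_nonneg (X : Finset P) : 0 ≤ hh I X := by
  have := hR.sum_CR_sdiff X
  have h2 : 0 ≤ ∑ q ∈ CR I X, ((I q \ X).card : ℤ) := sum_nonneg fun _ _ => by positivity
  linarith

lemma CR_empty_of_ff {X : Finset P} (h : ff I X = 0) : CR I X = ∅ := by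
  have h1 := hR.sum_CR_inter X
  rw [h, mul_zero] at h1
  rw [sum_eq_zero_iff_of_nonneg (fun _ _ => by positivity)] at h1
  by_contra hne
  obtain ⟨q, hq⟩ := nonempty_iff_ne_empty.2 hne
  have h2 := h1 q hq
  have h3 := (mem_CR.1 hq).1.card_pos
  have : (0:ℤ) < (I q ∩ X).card := by exact_mod_cast h3
  omega

lemma CR_empty_of_hh {X : Finset P} (h : hh I X = 0) : CR I X = ∅ := by
  have h1 := hR.sum_CR_sdiff X
  rw [h, mul_zero] at h1
  rw [sum_eq_zero_iff_of_nonneg (fun _ _ => by positivity)] at h1
  by_contra hne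
  obtain ⟨q, hq⟩ := nonempty_iff_ne_empty.2 hne
  have h2 := h1 q hq
  have h3 : (I q \ X).Nonempty := by
    rw [sdiff_nonempty]; exact (mem_CR.1 hq).2
  have h4 := h3.card_pos
  have : (0:ℤ) < (I q \ X).card := by exact_mod_cast h4
  omega

lemma ff_zero_iff_hh_zero (X : Finset P) : ff I X = 0 ↔ hh I X = 0 := by
  have h := hR.card_CR X
  constructor
  · intro h0
    rw [hR.CR_empty_of_ff h0, h0] at h
    simpa using h.symm
  · intro h0
    rw [hR.CR_empty_of_hh h0, h0] at h
    simpa using h.symm

lemma hh_single (p : P) : hh I {p} = 2 := by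
  unfold hh
  have : NN I {p} = univ.filter (fun q => p ∈ I q) := by
    ext q
    simp only [NN, mem_filter, mem_univ, true_and]
    constructor
    · rintro ⟨x, hx⟩
      rw [mem_inter, mem_singleton] at hx
      rw [← hx.2]; exact hx.1
    · intro h
      exact ⟨p, by simp [h]⟩
  rw [this, hR.reg, card_singleton]
  norm_num

lemma two_le_of_hh {X : Finset P} (hne : X.Nonempty) (h : hh I X = 1) : 2 ≤ X.card := by
  have h0 := hne.card_pos
  by_contra hcon
  have h1 : X.card = 1 := by omega
  obtain ⟨p, rfl⟩ := card_eq_one.1 h1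
  rw [hR.hh_single] at h
  omega

lemma three_le_of_ff {X : Finset P} (h2 : 2 ≤ X.card) (h : ff I X = 1) : 3 ≤ X.card := by
  unfold ff at h
  have h3 : 0 < (EE I X).card := by omega
  obtain ⟨q, hq⟩ := card_pos.1 h3
  rw [← hR.uni q]
  exact card_le_card (mem_EE.1 hq)

/-- mixed submodularity, with a surplus edge -/
lemma mixed (S W : Finset P) : ff I (S \ W) + hh I (W \ S) ≤ ff I S + hh I W := by
  have h1 : (EE I S).card + (NN I (W \ S)).card ≤ (EE I (S \ W)).card + (NN I W).card := by
    have e1 : (EE I S).card = (EE I (S \ W)).card + (EE I S \ EE I (S \ W)).card := by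
      rw [card_sdiff_of_subset (fun q hq => mem_EE.2 ((mem_EE.1 hq).trans sdiff_subset))]
      have := card_le_card (fun q (hq : q ∈ EE I (S \ W)) => mem_EE.2 ((mem_EE.1 hq).trans (sdiff_subset (s := S) (t := W))))
      omega
    have e2 : (NN I (W \ S)).card + (EE I S \ EE I (S \ W)).card ≤ (NN I W).card := by
      rw [← card_union_of_disjoint]
      · apply card_le_card
        intro q hq
        rw [mem_union] at hq
        rw [mem_NN]
        rcases hq with hq | hq
        · rw [mem_NN] at hq
          exact hq.mono (inter_subset_inter_left sdiff_subset)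
        · rw [mem_sdiff, mem_EE, mem_EE] at hq
          obtain ⟨x, hx, hxn⟩ := not_subset.1 hq.2
          rw [mem_sdiff, not_and, not_not] at hxn
          exact ⟨x, mem_inter.2 ⟨hx, hxn (hq.1 hx)⟩⟩
      · rw [disjoint_left]
        intro q hq hq'
        rw [mem_NN] at hq
        rw [mem_sdiff, mem_EE] at hq'
        obtain ⟨x, hx⟩ := hq
        rw [mem_inter, mem_sdiff] at hx
        exact hx.2.2 (hq'.1 hx.1)
    omega
  have h2 : (S.card : ℤ) + (W \ S).card = W.card + (S \ W).card := by
    have a1 := card_sdiff_add_card_inter S W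
    have a2 := card_sdiff_add_card_inter W S
    rw [inter_comm] at a2
    omega
  unfold ff hh
  have h3 : ((EE I S).card : ℤ) + (NN I (W \ S)).card ≤ (EE I (S \ W)).card + (NN I W).card := by
    exact_mod_cast h1
  linarith

/-- mixed submodularity, strict in the presence of an extra edge -/
lemma mixed_lt (S W : Finset P) {g : Q} (h1 : (I g ∩ W).Nonempty) (h2 : ¬ (I g ∩ (W \ S)).Nonempty)
    (h3 : ¬ I g ⊆ S) : ff I (S \ W) + hh I (W \ S) + 1 ≤ ff I S + hh I W := by
  have h1' : (EE I S).card + (NN I (W \ S)).card + 1 ≤ (EE I (S \ W)).card + (NN I W).card := by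
    have e1 : (EE I S).card = (EE I (S \ W)).card + (EE I S \ EE I (S \ W)).card := by
      rw [card_sdiff_of_subset (fun q hq => mem_EE.2 ((mem_EE.1 hq).trans sdiff_subset))]
      have := card_le_card (fun q (hq : q ∈ EE I (S \ W)) => mem_EE.2 ((mem_EE.1 hq).trans (sdiff_subset (s := S) (t := W))))
      omega
    have e2 : (NN I (W \ S)).card + (EE I S \ EE I (S \ W)).card + 1 ≤ (NN I W).card := by
      rw [← card_union_of_disjoint, ← card_insert_of_notMem (a := g)]
      · apply card_le_card
        intro q hq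
        rw [mem_insert, mem_union] at hq
        rw [mem_NN]
        rcases hq with rfl | hq | hq
        · exact h1
        · rw [mem_NN] at hq
          exact hq.mono (inter_subset_inter_left sdiff_subset)
        · rw [mem_sdiff, mem_EE, mem_EE] at hq
          obtain ⟨x, hx, hxn⟩ := not_subset.1 hq.2
          rw [mem_sdiff, not_and, not_not] at hxn
          exact ⟨x, mem_inter.2 ⟨hx, hxn (hq.1 hx)⟩⟩
      · rw [mem_union, not_or, mem_NN, mem_sdiff, mem_EE]
        exact ⟨h2, fun h => h3 h.1⟩
      · rw [disjoint_left]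
        intro q hq hq'
        rw [mem_NN] at hq
        rw [mem_sdiff, mem_EE] at hq'
        obtain ⟨x, hx⟩ := hq
        rw [mem_inter, mem_sdiff] at hx
        exact hx.2.2 (hq'.1 hx.1)
    omega
  have h2' : (S.card : ℤ) + (W \ S).card = W.card + (S \ W).card := by
    have a1 := card_sdiff_add_card_inter S W
    have a2 := card_sdiff_add_card_inter W S
    rw [inter_comm] at a2
    omega
  unfold ff hh
  have h3' : ((EE I S).card : ℤ) + (NN I (W \ S)).card + 1 ≤ (EE I (S \ W)).card + (NN I W).card := by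
    exact_mod_cast h1'
  linarith

omit hR in
lemma ff_submod (A B : Finset P) : ff I (A ∩ B) + ff I (A ∪ B) ≤ ff I A + ff I B := by
  have h1 : EE I A ∪ EE I B ⊆ EE I (A ∪ B) := by
    intro q hq
    rw [mem_union, mem_EE, mem_EE] at hq
    rw [mem_EE]
    rcases hq with h | h
    · exact h.trans subset_union_left
    · exact h.trans subset_union_right
  have h2 : EE I A ∩ EE I B = EE I (A ∩ B) := by
    ext q
    rw [mem_inter, mem_EE, mem_EE, mem_EE, subset_inter_iff]
  have h3 := card_union_add_card_inter (EE I A) (EE I B)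
  have h4 := card_union_add_card_inter A B
  have h5 := card_le_card h1
  rw [h2] at h3
  unfold ff
  omega

omit hR in
lemma hh_submod (A B : Finset P) : hh I (A ∩ B) + hh I (A ∪ B) ≤ hh I A + hh I B := by
  have h1 : NN I A ∪ NN I B = NN I (A ∪ B) := by
    ext q
    rw [mem_union, mem_NN, mem_NN, mem_NN, inter_union_distrib_left]
    constructor
    · rintro (h | h)
      · exact h.mono subset_union_left
      · exact h.mono subset_union_right
    · rintro ⟨x, hx⟩
      rw [mem_union] at hx
      rcases hx with h | h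
      · exact Or.inl ⟨x, h⟩
      · exact Or.inr ⟨x, h⟩
  have h2 : NN I (A ∩ B) ⊆ NN I A ∩ NN I B := by
    intro q hq
    rw [mem_NN] at hq
    rw [mem_inter, mem_NN, mem_NN]
    exact ⟨hq.mono (inter_subset_inter_left inter_subset_left), hq.mono (inter_subset_inter_left inter_subset_right)⟩
  have h3 := card_union_add_card_inter (NN I A) (NN I B)
  have h4 := card_union_add_card_inter A B
  have h5 := card_le_card h2
  rw [h1] at h3
  unfold hh
  omega

/-- removing a point -/
lemma ff_erase {X : Finset P} {t : P} (ht : t ∈ X) :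
    ff I (X.erase t) = ff I X - 1 + ((EE I X).filter (fun q => t ∈ I q)).card := by
  have h1 : EE I (X.erase t) = (EE I X).filter (fun q => ¬ t ∈ I q) := by
    ext q
    rw [mem_EE, mem_filter, mem_EE, subset_erase]
  have h2 := card_filter_add_card_filter_not (s := EE I X) (fun q => t ∈ I q)
  unfold ff
  rw [h1, card_erase_of_mem ht]
  have h3 : 1 ≤ X.card := card_pos.2 ⟨t, ht⟩
  omega

/-- adding a point -/
lemma hh_insert {X : Finset P} {t : P} (ht : t ∉ X) :
    hh I (insert t X) = hh I X - 1 + (univ.filter (fun q => t ∈ I q ∧ ¬ (I q ∩ X).Nonempty)).card := by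
  have h1 : NN I (insert t X) = NN I X ∪ univ.filter (fun q => t ∈ I q ∧ ¬ (I q ∩ X).Nonempty) := by
    ext q
    rw [mem_union, mem_NN, mem_NN, mem_filter]
    constructor
    · rintro ⟨x, hx⟩
      rw [mem_inter, mem_insert] at hx
      by_cases h : (I q ∩ X).Nonempty
      · exact Or.inl h
      · right
        refine ⟨mem_univ _, ?_, h⟩
        rcases hx.2 with rfl | h'
        · exact hx.1
        · exact absurd ⟨x, mem_inter.2 ⟨hx.1, h'⟩⟩ h
    · rintro (h | h)
      · exact h.mono (inter_subset_inter_left (subset_insert _ _))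
      · exact ⟨t, mem_inter.2 ⟨h.2.1, mem_insert_self _ _⟩⟩
  have h2 : Disjoint (NN I X) (univ.filter (fun q => t ∈ I q ∧ ¬ (I q ∩ X).Nonempty)) := by
    rw [disjoint_left]
    intro q hq hq'
    rw [mem_NN] at hq
    exact (mem_filter.1 hq').2.2 hq
  unfold hh
  rw [h1, card_union_of_disjoint h2, card_insert_of_notMem ht]
  push_cast
  ring

/-- few crossing edges, first form -/
lemma cross_le {X : Finset P} (h : ff I X = 1) {g : Q} (hg : g ∈ CR I X) (h2 : 2 ≤ (I g ∩ X).card) :
    hh I X ≤ 1 := by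
  have h1 := hR.sum_CR_inter X
  rw [h] at h1
  have h3 : ((CR I X).card : ℤ) + 1 ≤ ∑ q ∈ CR I X, ((I q ∩ X).card : ℤ) := by
    rw [← add_sum_erase _ _ hg]
    have h4 : (((CR I X).erase g).card : ℤ) ≤ ∑ q ∈ (CR I X).erase g, ((I q ∩ X).card : ℤ) := by
      rw [card_eq_sum_ones]
      push_cast
      apply sum_le_sum
      intro q hq
      have := (mem_CR.1 (mem_of_mem_erase hq)).1.card_pos
      exact_mod_cast this
    rw [card_erase_of_mem hg] at h4
    have h5 : 1 ≤ (CR I X).card := card_pos.2 ⟨g, hg⟩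
    have h6 : (2:ℤ) ≤ (I g ∩ X).card := by exact_mod_cast h2
    push_cast [h5] at h4
    linarith
  have h4 := hR.card_CR X
  linarith

/-- few crossing edges, second form -/
lemma cross_le' {X : Finset P} (h : hh I X = 1) {g : Q} (hg : g ∈ CR I X) (h2 : 2 ≤ (I g \ X).card) :
    ff I X ≤ 1 := by
  have h1 := hR.sum_CR_sdiff X
  rw [h] at h1
  have h3 : ((CR I X).card : ℤ) + 1 ≤ ∑ q ∈ CR I X, ((I q \ X).card : ℤ) := by
    rw [← add_sum_erase _ _ hg]
    have h4 : (((CR I X).erase g).card : ℤ) ≤ ∑ q ∈ (CR I X).erase g, ((I q \ X).card : ℤ) := by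
      rw [card_eq_sum_ones]
      push_cast
      apply sum_le_sum
      intro q hq
      have h7 : (I q \ X).Nonempty := by
        rw [sdiff_nonempty]; exact (mem_CR.1 (mem_of_mem_erase hq)).2
      have := h7.card_pos
      exact_mod_cast this
    rw [card_erase_of_mem hg] at h4
    have h5 : 1 ≤ (CR I X).card := card_pos.2 ⟨g, hg⟩
    have h6 : (2:ℤ) ≤ (I g \ X).card := by exact_mod_cast h2
    push_cast [h5] at h4
    linarith
  have h4 := hR.card_CR X
  linarith

end Reg

end Pool.Agent.W168.FT
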