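import Mathlib
import Pool.Agent.W168.FT2

set_option autoImplicit false
set_option linter.unusedSectionVars false

/-!
# An unseparated pair of points
-/

open Finset

namespace Pool.Agent.W168.FT

variable {P Q : Type*} [Fintype P] [DecidableEq P] [Fintype Q] [DecidableEq Q] {I : Q → Finset P}

lemma ff_empty (hR : Reg I) : ff I ∅ = 0 := by
  unfold ff
  have : EE I ∅ = ∅ := by
    ext q
    rw [mem_EE, subset_empty]
    constructor
    · intro h
      have := hR.uni q
      rw [h] at this
      simp at this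
    · intro h; simp at h
  rw [this]; simp

lemma hh_empty : hh I ∅ = 0 := by
  unfold hh
  have : NN I ∅ = ∅ := by
    ext q
    rw [mem_NN, inter_empty]
    simp
  rw [this]; simp

/-- a connected component -/
structure Comp (I : Q → Finset P) (C : Finset P) : Prop where
  ne : C.Nonempty
  f0 : ff I C = 0
  pos : ∀ X ⊆ C, X.Nonempty → X ≠ C → 1 ≤ ff I X

namespace Comp

variable {C : Finset P} (hR : Reg I) (hC : Comp I C)
include hR hC

lemma hpos {X : Finset P} (hX : X ⊆ C) (hne : X.Nonempty) (hXC : X ≠ C) : 1 ≤ hh I X := by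
  have h1 := hC.pos X hX hne hXC
  have h2 := hR.hh_nonneg X
  have h3 := hR.ff_zero_iff_hh_zero X
  by_contra hcon
  have h4 : hh I X = 0 := by omega
  have := h3.2 h4
  omega

lemma compl_eq {X : Finset P} (hX : X ⊆ C) : ff I (C \ X) = hh I X := by
  have h1 := hR.mixed C X
  have h2 := hR.mixed (C \ X) C
  have e1 : X \ C = ∅ := sdiff_eq_empty_iff_subset.2 hX
  have e2 : (C \ X) \ C = ∅ := sdiff_eq_empty_iff_subset.2 sdiff_subset
  have e3 : C \ (C \ X) = X := by
    rw [sdiff_sdiff_right_self]; exact inf_eq_right.2 hX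
  have hf0 := hC.f0
  have hh0 : hh I C = 0 := (hR.ff_zero_iff_hh_zero C).1 hf0
  rw [e1, hh_empty] at h1
  rw [e2, e3, ff_empty hR] at h2
  omega

lemma card_three : 3 ≤ C.card := by
  have h := hC.f0
  unfold ff at h
  have h1 := hC.ne.card_pos
  have h3 : 0 < (EE I C).card := by omega
  obtain ⟨q, hq⟩ := card_pos.1 h3
  rw [← hR.uni q]
  exact card_le_card (mem_EE.1 hq)

/-- the special boundary point -/
lemma exists_special {X : Finset P} (hX : X ⊆ C) (hXne : X.Nonempty) (h : X = C ∨ (ff I X = 1 ∧ hh I X = 1)) :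
    ∃ a ∈ X, (∀ q w, I q ∩ X = {w} → w = a) ∧ (X ≠ C → ∃ e, I e ∩ X = {a}) := by
  by_cases hXC : X = C
  · subst hXC
    obtain ⟨a, ha⟩ := hXne
    refine ⟨a, ha, fun q w hq => ?_, fun h => absurd rfl h⟩
    exfalso
    have h1 := hR.CR_empty_of_ff hC.f0
    have h2 : q ∉ CR I X := by rw [h1]; simp
    rw [mem_CR, not_and, not_not] at h2
    have h3 := h2 ⟨w, by rw [hq]; simp⟩
    rw [inter_eq_left.2 h3] at hq
    have := hR.uni q
    rw [hq] at this
    simp at this
  · obtain ⟨h1, h2⟩ : ff I X = 1 ∧ hh I X = 1 := h.resolve_left hXC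
    have h3 := hR.card_CR X
    have h4 := hR.sum_CR_inter X
    rw [h1, h2] at h3
    rw [h1] at h4
    have h5 : (CR I X).card = 2 := by omega
    obtain ⟨q1, q2, hne, hCR⟩ := card_eq_two.1 h5
    rw [hCR, sum_pair hne] at h4
    have m1 : q1 ∈ CR I X := by rw [hCR]; simp
    have m2 : q2 ∈ CR I X := by rw [hCR]; simp
    have p1 := (mem_CR.1 m1).1.card_pos
    have p2 := (mem_CR.1 m2).1.card_pos
    have key : ∀ q1 q2 : Q, (∀ q, q ∈ CR I X → q = q1 ∨ q = q2) → (I q1 ∩ X).card = 1 →
        (I q2 ∩ X).card = 2 → ∃ a ∈ X, (∀ q w, I q ∩ X = {w} → w = a) ∧ (X ≠ C → ∃ e, I e ∩ X = {a}) := by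
      intro q1 q2 hq c1 c2
      obtain ⟨a, ha⟩ := card_eq_one.1 c1
      have haX : a ∈ X := by
        have : a ∈ I q1 ∩ X := by rw [ha]; simp
        exact (mem_inter.1 this).2
      refine ⟨a, haX, fun q w hqw => ?_, fun _ => ⟨q1, ha⟩⟩
      have hmem : q ∈ CR I X := by
        rw [mem_CR]
        refine ⟨⟨w, by rw [hqw]; simp⟩, fun hsub => ?_⟩
        rw [inter_eq_left.2 hsub] at hqw
        have := hR.uni q
        rw [hqw] at this
        simp at this
      rcases hq q hmem with rfl | rfl
      · rw [ha] at hqw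
        exact (singleton_injective hqw).symm
      · rw [hqw] at c2
        simp at c2
    have hq : ∀ q, q ∈ CR I X → q = q1 ∨ q = q2 := by
      intro q hq
      rw [hCR, mem_insert, mem_singleton] at hq
      exact hq
    have hs : ((I q1 ∩ X).card = 1 ∧ (I q2 ∩ X).card = 2) ∨ ((I q1 ∩ X).card = 2 ∧ (I q2 ∩ X).card = 1) := by
      omega
    rcases hs with hs | hs
    · exact key q1 q2 hq hs.1 hs.2
    · exact key q2 q1 (fun q h => (hq q h).symm) hs.2 hs.1

/-- two points of the component which are not separated by a nontrivial tight set -/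
theorem exists_unsep : ∃ u ∈ C, ∃ v ∈ C, u ≠ v ∧ ∀ Y ⊆ C, ff I Y = 1 → 2 ≤ Y.card → (u ∈ Y ↔ v ∈ Y) := by
  classical
  -- the minimal side of a two-edge cut
  obtain ⟨X₀, hX₀, hX₀min'⟩ := exists_min_image
    (C.powerset.filter (fun X => X.Nonempty ∧ (X = C ∨ (ff I X = 1 ∧ hh I X = 1)))) card
    ⟨C, by simp [hC.ne]⟩
  rw [mem_filter, mem_powerset] at hX₀
  obtain ⟨hX₀C, hX₀ne, hX₀t⟩ := hX₀
  have hX₀min : ∀ X ⊆ C, X.Nonempty → ff I X = 1 → hh I X = 1 → X₀.card ≤ X.card := by
    intro X h1 h2 h3 h4
    exact hX₀min' X (by rw [mem_filter, mem_powerset]; exact ⟨h1, h2, Or.inr ⟨h3, h4⟩⟩)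
  obtain ⟨a, haX₀, ha1, ha2⟩ := hC.exists_special hR hX₀C hX₀ne hX₀t
  have haC : a ∈ C := hX₀C haX₀
  have hX₀3 : 3 ≤ X₀.card := by
    rcases hX₀t with h | ⟨h1, h2⟩
    · rw [h]; exact hC.card_three hR
    · exact hR.three_le_of_ff (hR.two_le_of_hh hX₀ne h2) h1
  -- positivity
  have hposf : ∀ X ⊆ X₀.erase a, X.Nonempty → 1 ≤ ff I X ∧ 1 ≤ hh I X := by
    intro X hX hne
    have hXC : X ⊆ C := hX.trans ((erase_subset _ _).trans hX₀C)
    have hXne : X ≠ C := by
      rintro rfl
      exact notMem_erase a _ (hX haC)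
    exact ⟨hC.pos X hXC hne hXne, hC.hpos hR hXC hne hXne⟩
  -- the minimal side
  obtain ⟨S, hS, hSmin'⟩ := exists_min_image
    ((X₀.erase a).powerset.filter (fun S => S = X₀.erase a ∨ (2 ≤ S.card ∧ (ff I S = 1 ∨ hh I S = 1)))) card
    ⟨X₀.erase a, by simp⟩
  rw [mem_filter, mem_powerset] at hS
  obtain ⟨hSX, hSt⟩ := hS
  have hSmin : ∀ W ⊆ X₀.erase a, 2 ≤ W.card → (ff I W = 1 ∨ hh I W = 1) → S.card ≤ W.card := by
    intro W h1 h2 h3
    exact hSmin' W (by rw [mem_filter, mem_powerset]; exact ⟨h1, Or.inr ⟨h2, h3⟩⟩)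
  have hS2 : 2 ≤ S.card := by
    rcases hSt with h | h
    · rw [h, card_erase_of_mem haX₀]; omega
    · exact h.1
  -- uncrossing
  have core : ∀ W ⊆ X₀.erase a, 2 ≤ W.card → (ff I W = 1 ∨ hh I W = 1) → ∀ s ∈ S, s ∈ W →
      ∀ s' ∈ S, s' ∉ W → False := by
    intro W hWX hW2 hWt s hs hsW s' hs' hs'W
    have hWS : ¬ W ⊆ S := by
      intro h
      have h1 := hSmin W hWX hW2 hWt
      have h2 : W.card < S.card := card_lt_card ⟨h, fun h' => hs'W (h' hs')⟩
      omega
    have hSt' : ff I S = 1 ∨ hh I S = 1 := by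
      rcases hSt with h | h
      · exact absurd (h ▸ hWX) hWS
      · exact h.2
    obtain ⟨z, hzW, hzS⟩ := not_subset.1 hWS
    have hinter_sub : S ∩ W ⊆ X₀.erase a := inter_subset_left.trans hSX
    have hinter_ne : (S ∩ W).Nonempty := ⟨s, mem_inter.2 ⟨hs, hsW⟩⟩
    have hinter_lt : (S ∩ W).card < S.card :=
      card_lt_card ⟨inter_subset_left, fun h' => hs'W (mem_inter.1 (h' hs')).2⟩
    have hunion_sub : S ∪ W ⊆ X₀.erase a := union_subset hSX hWX
    have hunion_ne : (S ∪ W).Nonempty := ⟨s, mem_union_left _ hs⟩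
    have hSW_sub : S \ W ⊆ X₀.erase a := sdiff_subset.trans hSX
    have hSW_ne : (S \ W).Nonempty := ⟨s', mem_sdiff.2 ⟨hs', hs'W⟩⟩
    have hSW_lt : (S \ W).card < S.card :=
      card_lt_card ⟨sdiff_subset, fun h' => (mem_sdiff.1 (h' hs)).2 hsW⟩
    have hWS_sub : W \ S ⊆ X₀.erase a := sdiff_subset.trans hWX
    have hWS_ne : (W \ S).Nonempty := ⟨z, mem_sdiff.2 ⟨hzW, hzS⟩⟩
    have toC : ∀ X ⊆ X₀.erase a, X ⊆ C := fun X h => h.trans ((erase_subset _ _).trans hX₀C)
    have small : ∀ X ⊆ X₀.erase a, X.card < X₀.card := by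
      intro X hX
      have := card_le_card hX
      rw [card_erase_of_mem haX₀] at this
      omega
    -- the number of inner edges at a point of a tight `S`
    have inner : ∀ t ∈ S, ff I S = 1 → 2 ≤ ((EE I S).filter (fun q => t ∈ I q)).card := by
      intro t ht hS1
      have h3 := hR.three_le_of_ff hS2 hS1
      have h1 := hR.ff_erase ht
      have hce : (S.erase t).card = S.card - 1 := card_erase_of_mem ht
      have hne : (S.erase t).Nonempty := by rw [← card_pos, hce]; omega
      have hp := (hposf (S.erase t) ((erase_subset _ _).trans hSX) hne).1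
      by_contra hcon
      have h4 : ff I (S.erase t) = 1 := by omega
      have h5 := hSmin (S.erase t) ((erase_subset _ _).trans hSX) (by omega) (Or.inl h4)
      omega
    rcases hSt' with hS1 | hS1 <;> rcases hWt with hW1 | hW1
    · -- both tight
      have h1 := Reg.ff_submod (I := I) S W
      have h2 := (hposf _ hinter_sub hinter_ne).1
      have h3 := (hposf _ hunion_sub hunion_ne).1
      have h4 : ff I (S ∩ W) = 1 := by omega
      have h5 : (S ∩ W).card = 1 := by
        have h0 := hinter_ne.card_pos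
        by_contra hcon
        have := hSmin _ hinter_sub (by omega) (Or.inl h4)
        omega
      obtain ⟨t, ht⟩ := card_eq_one.1 h5
      have htm : t ∈ S ∩ W := by rw [ht]; simp
      have htS := (mem_inter.1 htm).1
      have htW := (mem_inter.1 htm).2
      have hp := inner t htS hS1
      have hq := hR.ff_erase htW
      have hq3 : ((EE I S).filter (fun q => t ∈ I q)).card + ((EE I W).filter (fun q => t ∈ I q)).card ≤ 3 := by
        rw [← hR.reg t, ← card_union_of_disjoint]
        · apply card_le_card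
          intro q hq
          rw [mem_union, mem_filter, mem_filter] at hq
          rw [mem_filter]
          exact ⟨mem_univ _, by rcases hq with h | h <;> exact h.2⟩
        · rw [disjoint_left]
          intro q hq hq'
          rw [mem_filter, mem_EE] at hq hq'
          have h6 : I q ⊆ S ∩ W := subset_inter hq.1 hq'.1
          have h7 := card_le_card h6
          rw [hR.uni, h5] at h7
          omega
      have hWe_sub : W.erase t ⊆ X₀.erase a := (erase_subset _ _).trans hWX
      have hWe_ne : (W.erase t).Nonempty := by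
        rw [← card_pos, card_erase_of_mem htW]; omega
      have hWp := (hposf _ hWe_sub hWe_ne).1
      have hq1 : ((EE I W).filter (fun q => t ∈ I q)).card = 1 := by omega
      have hf1 : ff I (W.erase t) = 1 := by omega
      obtain ⟨g, hg⟩ := card_pos.1 (by omega : 0 < ((EE I W).filter (fun q => t ∈ I q)).card)
      rw [mem_filter, mem_EE] at hg
      have hgi : I g ∩ W.erase t = (I g).erase t := by
        ext x
        simp only [mem_inter, mem_erase]
        constructor
        · rintro ⟨h1, h2, h3⟩; exact ⟨h2, h1⟩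
        · rintro ⟨h1, h2⟩; exact ⟨h2, h1, hg.1 h2⟩
      have hgc : (I g ∩ W.erase t).card = 2 := by
        rw [hgi, card_erase_of_mem hg.2, hR.uni]
      have hgCR : g ∈ CR I (W.erase t) := by
        rw [mem_CR]
        refine ⟨by rw [← card_pos]; omega, fun h => ?_⟩
        exact notMem_erase t W (h hg.2)
      have h8 := hR.cross_le hf1 hgCR (by omega)
      have h9 := (hposf _ hWe_sub hWe_ne).2
      have h10 := hX₀min _ (toC _ hWe_sub) hWe_ne hf1 (by omega)
      have h11 := small _ hWe_sub
      omega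
    · -- `S` tight, `W` co-tight
      have h1 := hR.mixed S W
      have h2 := (hposf _ hSW_sub hSW_ne).1
      have h3 := (hposf _ hWS_sub hWS_ne).2
      have h4 : ff I (S \ W) = 1 := by omega
      have h5 : (S \ W).card = 1 := by
        have h0 := hSW_ne.card_pos
        by_contra hcon
        have := hSmin _ hSW_sub (by omega) (Or.inl h4)
        omega
      obtain ⟨t, ht⟩ := card_eq_one.1 h5
      have htm : t ∈ S \ W := by rw [ht]; simp
      have htS := (mem_sdiff.1 htm).1
      have htW := (mem_sdiff.1 htm).2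
      have hp := inner t htS hS1
      have hq := hR.hh_insert htW
      have hq3 : ((EE I S).filter (fun q => t ∈ I q)).card +
          (univ.filter (fun q => t ∈ I q ∧ ¬ (I q ∩ W).Nonempty)).card ≤ 3 := by
        rw [← hR.reg t, ← card_union_of_disjoint]
        · apply card_le_card
          intro q hq
          rw [mem_union, mem_filter, mem_filter] at hq
          rw [mem_filter]
          exact ⟨mem_univ _, by rcases hq with h | h; exacts [h.2, h.2.1]⟩
        · rw [disjoint_left]
          intro q hq hq'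
          rw [mem_filter, mem_EE] at hq
          rw [mem_filter] at hq'
          apply hq'.2.2
          have h6 : ((I q).erase t).Nonempty := by
            rw [← card_pos, card_erase_of_mem hq.2, hR.uni]; norm_num
          obtain ⟨y, hy⟩ := h6
          rw [mem_erase] at hy
          refine ⟨y, mem_inter.2 ⟨hy.2, ?_⟩⟩
          by_contra hyW
          have : y ∈ S \ W := mem_sdiff.2 ⟨hq.1 hy.2, hyW⟩
          rw [ht, mem_singleton] at this
          exact hy.1 this
      have hWi_sub : insert t W ⊆ X₀.erase a := insert_subset (hSX htS) hWX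
      have hWi_ne : (insert t W).Nonempty := insert_nonempty _ _
      have hWp := (hposf _ hWi_sub hWi_ne).2
      have hh1 : hh I (insert t W) = 1 := by omega
      obtain ⟨g, hg⟩ := card_pos.1
        (by omega : 0 < (univ.filter (fun q => t ∈ I q ∧ ¬ (I q ∩ W).Nonempty)).card)
      rw [mem_filter] at hg
      have hgi : I g \ insert t W = (I g).erase t := by
        ext x
        simp only [mem_sdiff, mem_erase, mem_insert, not_or]
        constructor
        · rintro ⟨h1, h2, h3⟩; exact ⟨h2, h1⟩
        · rintro ⟨h1, h2⟩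
          refine ⟨h2, h1, fun hxW => hg.2.2 ⟨x, mem_inter.2 ⟨h2, hxW⟩⟩⟩
      have hgc : (I g \ insert t W).card = 2 := by
        rw [hgi, card_erase_of_mem hg.2.1, hR.uni]
      have hgCR : g ∈ CR I (insert t W) := by
        rw [mem_CR]
        refine ⟨⟨t, mem_inter.2 ⟨hg.2.1, mem_insert_self _ _⟩⟩, fun h => ?_⟩
        rw [sdiff_eq_empty_iff_subset.2 h] at hgc
        simp at hgc
      have h8 := hR.cross_le' hh1 hgCR (by omega)
      have h9 := (hposf _ hWi_sub hWi_ne).1
      have h10 := hX₀min _ (toC _ hWi_sub) hWi_ne (by omega) hh1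
      have h11 := small _ hWi_sub
      omega
    · -- `S` co-tight, `W` tight
      have h1 := hR.mixed W S
      have h2 := (hposf _ hWS_sub hWS_ne).1
      have h3 := (hposf _ hSW_sub hSW_ne).2
      have h4 : hh I (S \ W) = 1 := by omega
      have h5 := hR.two_le_of_hh hSW_ne h4
      have := hSmin _ hSW_sub h5 (Or.inr h4)
      omega
    · -- both co-tight
      have h1 := Reg.hh_submod (I := I) S W
      have h2 := (hposf _ hinter_sub hinter_ne).2
      have h3 := (hposf _ hunion_sub hunion_ne).2
      have h4 : hh I (S ∩ W) = 1 := by omega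
      have h5 := hR.two_le_of_hh hinter_ne h4
      have := hSmin _ hinter_sub h5 (Or.inr h4)
      omega
  -- a tight set does not separate
  have sep : ∀ Y ⊆ C, ff I Y = 1 → 2 ≤ Y.card → ∀ u ∈ S, u ∈ Y → ∀ v ∈ S, v ∉ Y → False := by
    intro Y hYC hY1 hY2 u hu huY v hv hvY
    have hvX : v ∈ X₀ := mem_of_mem_erase (hSX hv)
    have huX : u ∈ X₀ := mem_of_mem_erase (hSX hu)
    have hva : v ≠ a := ne_of_mem_erase (hSX hv)
    have hua : u ≠ a := ne_of_mem_erase (hSX hu)
    by_cases hYX : Y ⊆ X₀
    · by_cases haY : a ∈ Y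
      · -- the complement in `X₀`
        have hsub : X₀ \ Y ⊆ X₀.erase a := by
          intro x hx
          rw [mem_sdiff] at hx
          rw [mem_erase]
          exact ⟨fun h => hx.2 (h ▸ haY), hx.1⟩
        have hne : (X₀ \ Y).Nonempty := ⟨v, mem_sdiff.2 ⟨hvX, hvY⟩⟩
        have hh1 : hh I (X₀ \ Y) = 1 := by
          by_cases hXC : X₀ = C
          · rw [hXC]
            have h1 := hC.compl_eq hR (X := C \ Y) sdiff_subset
            have e : C \ (C \ Y) = Y := by
              rw [sdiff_sdiff_right_self]; exact inf_eq_right.2 hYC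
            rw [e, hY1] at h1
            exact h1.symm
          · obtain ⟨e, he⟩ := ha2 hXC
            have hX1 := hX₀t.resolve_left hXC
            have h1 := hR.mixed_lt Y X₀ (g := e) (by rw [he]; simp) (by
              rintro ⟨x, hx⟩
              rw [mem_inter, mem_sdiff] at hx
              have : x ∈ I e ∩ X₀ := mem_inter.2 ⟨hx.1, hx.2.1⟩
              rw [he, mem_singleton] at this
              exact hx.2.2 (this ▸ haY)) (by
              intro h
              have := inter_eq_left.2 (h.trans hYX)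
              rw [he] at this
              have h3 := hR.uni e
              rw [← this] at h3
              simp at h3)
            rw [sdiff_eq_empty_iff_subset.2 hYX, ff_empty hR] at h1
            have h2 := (hposf _ hsub hne).2
            omega
        exact core _ hsub (hR.two_le_of_hh hne hh1) (Or.inr hh1) v hv (mem_sdiff.2 ⟨hvX, hvY⟩) u hu
          (fun h => (mem_sdiff.1 h).2 huY)
      · have hsub : Y ⊆ X₀.erase a := fun x hx => mem_erase.2 ⟨fun h => haY (h ▸ hx), hYX hx⟩
        exact core Y hsub hY2 (Or.inl hY1) u hu huY v hv hvY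
    · -- `X₀ \ Y` is co-tight
      have hXC : X₀ ≠ C := fun h => hYX (h ▸ hYC)
      have hX1 := hX₀t.resolve_left hXC
      have hne : (X₀ \ Y).Nonempty := ⟨v, mem_sdiff.2 ⟨hvX, hvY⟩⟩
      have hne' : (Y \ X₀).Nonempty := by
        obtain ⟨y, hy, hy'⟩ := not_subset.1 hYX
        exact ⟨y, mem_sdiff.2 ⟨hy, hy'⟩⟩
      have hXneC : X₀ \ Y ≠ C := by
        intro h
        exact hvY.elim (by
          have : u ∈ X₀ \ Y := by rw [h]; exact hX₀C huX
          exact absurd huY (mem_sdiff.1 this).2)
      have hYneC : Y \ X₀ ≠ C := by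
        intro h
        have : v ∈ Y \ X₀ := by rw [h]; exact hX₀C hvX
        exact (mem_sdiff.1 this).2 hvX
      have h1 := hR.mixed Y X₀
      have h2 := hC.hpos hR (sdiff_subset.trans hX₀C) hne hXneC
      have h3 := hC.pos _ (sdiff_subset.trans hYC) hne' hYneC
      have hh1 : hh I (X₀ \ Y) = 1 := by omega
      by_cases haW : a ∈ X₀ \ Y
      · -- the complement `X₀ ∩ Y` is tight
        obtain ⟨e, he⟩ := ha2 hXC
        have hsub : X₀ \ (X₀ \ Y) ⊆ X₀.erase a := by
          intro x hx
          rw [mem_sdiff] at hx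
          rw [mem_erase]
          exact ⟨fun h => hx.2 (h ▸ haW), hx.1⟩
        have huW : u ∈ X₀ \ (X₀ \ Y) := mem_sdiff.2 ⟨huX, fun h => (mem_sdiff.1 h).2 huY⟩
        have hne2 : (X₀ \ (X₀ \ Y)).Nonempty := ⟨u, huW⟩
        have h4 := hR.mixed_lt X₀ (X₀ \ Y) (g := e) ⟨a, mem_inter.2 ⟨by
            have : a ∈ I e ∩ X₀ := by rw [he]; simp
            exact (mem_inter.1 this).1, haW⟩⟩ (by
          rintro ⟨x, hx⟩
          rw [mem_inter, mem_sdiff] at hx
          exact hx.2.2 (mem_sdiff.1 hx.2.1).1) (by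
          intro h
          have := inter_eq_left.2 h
          rw [he] at this
          have h3 := hR.uni e
          rw [← this] at h3
          simp at h3)
        rw [sdiff_eq_empty_iff_subset.2 (sdiff_subset (s := X₀) (t := Y)), hh_empty] at h4
        have h5 := (hposf _ hsub hne2).1
        have h6 : ff I (X₀ \ (X₀ \ Y)) = 1 := by omega
        have h7 : 2 ≤ (X₀ \ (X₀ \ Y)).card := by
          have h0 := hne2.card_pos
          by_contra hcon
          have hc1 : (X₀ \ (X₀ \ Y)).card = 1 := by omega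
          obtain ⟨w, hw⟩ := card_eq_one.1 hc1
          have hwm : w ∈ X₀ \ (X₀ \ Y) := by rw [hw]; simp
          have hwa : w ≠ a := ne_of_mem_erase (hsub hwm)
          have hwX : w ∈ X₀ := mem_of_mem_erase (hsub hwm)
          have heq : X₀ \ Y = X₀.erase w := by
            have : X₀ \ (X₀ \ (X₀ \ Y)) = X₀ \ Y := by
              rw [sdiff_sdiff_right_self]; exact inf_eq_right.2 sdiff_subset
            rw [← this, hw, sdiff_singleton_eq_erase]
          have h8 := hR.hh_insert (X := X₀.erase w) (notMem_erase w X₀)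
          rw [insert_erase hwX] at h8
          have h9 : (univ.filter (fun q => w ∈ I q ∧ ¬ (I q ∩ X₀.erase w).Nonempty)).card = 0 := by
            rw [card_eq_zero, filter_eq_empty_iff]
            rintro q - ⟨hq1, hq2⟩
            apply hwa
            apply ha1 q w
            ext x
            rw [mem_inter, mem_singleton]
            constructor
            · rintro ⟨hx1, hx2⟩
              by_contra hne
              exact hq2 ⟨x, mem_inter.2 ⟨hx1, mem_erase.2 ⟨hne, hx2⟩⟩⟩
            · rintro rfl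
              exact ⟨hq1, hwX⟩
          rw [h9, ← heq, hh1, hX1.2] at h8
          norm_num at h8
        exact core _ hsub h7 (Or.inl h6) u hu huW v hv
          (fun h => (mem_sdiff.1 h).2 (mem_sdiff.2 ⟨hvX, hvY⟩))
      · have hsub : X₀ \ Y ⊆ X₀.erase a := fun x hx =>
          mem_erase.2 ⟨fun h => haW (h ▸ hx), (mem_sdiff.1 hx).1⟩
        exact core _ hsub (hR.two_le_of_hh hne hh1) (Or.inr hh1) v hv (mem_sdiff.2 ⟨hvX, hvY⟩) u hu
          (fun h => (mem_sdiff.1 h).2 huY)
  obtain ⟨u, hu, v, hv, huv⟩ := one_lt_card.1 (by omega : 1 < S.card)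
  refine ⟨u, hX₀C (mem_of_mem_erase (hSX hu)), v, hX₀C (mem_of_mem_erase (hSX hv)), huv,
    fun Y hYC hY1 hY2 => ⟨fun h => ?_, fun h => ?_⟩⟩
  · by_contra hcon
    exact sep Y hYC hY1 hY2 u hu h v hv hcon
  · by_contra hcon
    exact sep Y hYC hY1 hY2 v hv h u hu hcon

end Comp

end Pool.Agent.W168.FT
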