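import Mathlib
import Pool.Agent.W168.FT1
import Pool.Agent.W168.FT3

set_option autoImplicit false

/-!
# Light transversals of 3-regular 3-uniform hypergraphs, and fractional total domatic number
-/

open Finset

namespace Pool.Agent.W168.FT

variable {P Q : Type*} [Fintype P] [DecidableEq P] [Fintype Q] [DecidableEq Q] {I : Q → Finset P}

/-- a transversal of at most half the weight from an unseparated pair -/
lemma half_of_pair (hR : Reg I) {C : Finset P} (hC : Comp I C) {u v : P} (hu : u ∈ C) (hv : v ∈ C)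
    (huv : u ≠ v) (hsep : ∀ Y ⊆ C, ff I Y = 1 → 2 ≤ Y.card → (u ∈ Y ↔ v ∈ Y)) (x : P → ℝ)
    (hxuv : x v ≤ x u) :
    ∃ T ⊆ C, (∀ q, I q ⊆ C → (I q ∩ T).Nonempty) ∧ 2 * ∑ p ∈ T, x p ≤ ∑ p ∈ C, x p := by
  classical
  obtain ⟨c, hc⟩ := two_col (fun q => (I q).erase u) _ (univ.filter (fun q => I q ⊆ C ∧ v ∉ I q)) rfl (by
    intro F' hF' hne
    set X := F'.biUnion I with hX
    have hXC : X ⊆ C := by
      rw [hX, biUnion_subset]
      intro q hq
      exact (mem_filter.1 (hF' hq)).2.1
    have hvX : v ∉ X := by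
      rw [hX, mem_biUnion]
      rintro ⟨q, hq, hvq⟩
      exact (mem_filter.1 (hF' hq)).2.2 hvq
    obtain ⟨q0, hq0⟩ := hne
    have hq0X : I q0 ⊆ X := subset_biUnion_of_mem I hq0
    have h3 : 3 ≤ X.card := by
      rw [← hR.uni q0]; exact card_le_card hq0X
    have hXne : X.Nonempty := card_pos.1 (by omega)
    have hXneC : X ≠ C := fun h => hvX (h ▸ hv)
    have hf := hC.pos X hXC hXne hXneC
    have hE : F'.card ≤ (EE I X).card := by
      apply card_le_card
      intro q hq
      rw [mem_EE]
      exact subset_biUnion_of_mem I hq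
    have hU : X.erase u ⊆ F'.biUnion (fun q => (I q).erase u) := by
      intro p hp
      rw [mem_erase, hX, mem_biUnion] at hp
      obtain ⟨hpu, q, hq, hpq⟩ := hp
      rw [mem_biUnion]
      exact ⟨q, hq, mem_erase.2 ⟨hpu, hpq⟩⟩
    have hU' := card_le_card hU
    by_cases huX : u ∈ X
    · rw [card_erase_of_mem huX] at hU'
      have hne1 : ff I X ≠ 1 := by
        intro h1
        exact hvX ((hsep X hXC h1 (by omega)).1 huX)
      unfold ff at hf hne1
      omega
    · rw [erase_eq_of_notMem huX] at hU'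
      unfold ff at hf
      omega)
  have key : ∀ b : Bool, ∀ q, I q ⊆ C →
      (I q ∩ insert v (C.filter (fun p => c p = b ∧ p ≠ u ∧ p ≠ v))).Nonempty := by
    intro b q hq
    by_cases hvq : v ∈ I q
    · exact ⟨v, mem_inter.2 ⟨hvq, mem_insert_self _ _⟩⟩
    · have h := hc q (mem_filter.2 ⟨mem_univ _, hq, hvq⟩)
      have h' : ∃ p ∈ (I q).erase u, c p = b := by
        cases b
        · exact h.2
        · exact h.1
      obtain ⟨p, hp, hcp⟩ := h'
      rw [mem_erase] at hp
      refine ⟨p, mem_inter.2 ⟨hp.2, mem_insert_of_mem (mem_filter.2 ⟨hq hp.2, hcp, hp.1, ?_⟩)⟩⟩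
      rintro rfl
      exact hvq hp.2
  have sub : ∀ b : Bool, insert v (C.filter (fun p => c p = b ∧ p ≠ u ∧ p ≠ v)) ⊆ C := by
    intro b
    exact insert_subset hv (filter_subset _ _)
  have hs : ∀ b : Bool, ∑ p ∈ insert v (C.filter (fun p => c p = b ∧ p ≠ u ∧ p ≠ v)), x p
      = x v + ∑ p ∈ C.filter (fun p => c p = b ∧ p ≠ u ∧ p ≠ v), x p := by
    intro b
    rw [sum_insert]
    simp
  have htot : (∑ p ∈ C.filter (fun p => c p = true ∧ p ≠ u ∧ p ≠ v), x p)
      + (∑ p ∈ C.filter (fun p => c p = false ∧ p ≠ u ∧ p ≠ v), x p) + x u + x v = ∑ p ∈ C, x p := by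
    have h1 : ∑ p ∈ C, x p = ∑ p ∈ (C.erase u).erase v, x p + x v + x u := by
      rw [sum_erase_add _ _ (mem_erase.2 ⟨huv.symm, hv⟩), sum_erase_add _ _ hu]
    have h2 : ∑ p ∈ (C.erase u).erase v, x p
        = (∑ p ∈ C.filter (fun p => c p = true ∧ p ≠ u ∧ p ≠ v), x p)
      + (∑ p ∈ C.filter (fun p => c p = false ∧ p ≠ u ∧ p ≠ v), x p) := by
      rw [← sum_union]
      · apply sum_congr _ (fun _ _ => rfl)
        ext p
        simp only [mem_erase, mem_union, mem_filter]
        cases c p <;> tauto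
      · rw [disjoint_left]
        intro p hp hp'
        rw [mem_filter] at hp hp'
        rw [hp.2.1] at hp'
        exact absurd hp'.2.1 (by simp)
    rw [h1, h2]; ring
  by_cases hle : ∑ p ∈ C.filter (fun p => c p = true ∧ p ≠ u ∧ p ≠ v), x p
      ≤ ∑ p ∈ C.filter (fun p => c p = false ∧ p ≠ u ∧ p ≠ v), x p
  · exact ⟨_, sub true, key true, by rw [hs true]; linarith⟩
  · exact ⟨_, sub false, key false, by rw [hs false]; linarith⟩

/-- a transversal of at most half the weight of a component -/
lemma half_comp (hR : Reg I) {C : Finset P} (hC : Comp I C) (x : P → ℝ) :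
    ∃ T ⊆ C, (∀ q, I q ⊆ C → (I q ∩ T).Nonempty) ∧ 2 * ∑ p ∈ T, x p ≤ ∑ p ∈ C, x p := by
  obtain ⟨u, hu, v, hv, huv, hsep⟩ := hC.exists_unsep hR
  rcases le_total (x v) (x u) with h | h
  · exact half_of_pair hR hC hu hv huv hsep x h
  · exact half_of_pair hR hC hv hu huv.symm (fun Y h1 h2 h3 => (hsep Y h1 h2 h3).symm) x h

/-- a transversal of at most half the weight of a closed set -/
lemma half_closed (hR : Reg I) (x : P → ℝ) : ∀ n : ℕ, ∀ D : Finset P, D.card = n → ff I D = 0 →
    ∃ T ⊆ D, (∀ q, I q ⊆ D → (I q ∩ T).Nonempty) ∧ 2 * ∑ p ∈ T, x p ≤ ∑ p ∈ D, x p := by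
  classical
  intro n
  induction n using Nat.strong_induction_on with
  | _ n ih =>
    intro D hD hf
    by_cases hDe : D = ∅
    · subst hDe
      refine ⟨∅, subset_rfl, fun q hq => ?_, by simp⟩
      have := card_le_card hq
      rw [hR.uni] at this
      simp at this
    · have hDne : D.Nonempty := nonempty_iff_ne_empty.2 hDe
      obtain ⟨C, hC, hCmin⟩ := exists_min_image
        (D.powerset.filter (fun X => X.Nonempty ∧ ff I X = 0)) card ⟨D, by simp [hDne, hf]⟩
      rw [mem_filter, mem_powerset] at hC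
      obtain ⟨hCD, hCne, hC0⟩ := hC
      have hComp : Comp I C := by
        refine ⟨hCne, hC0, fun X hX hXne hXC => ?_⟩
        have h0 := hR.ff_nonneg X
        by_contra hcon
        have h1 : ff I X = 0 := by omega
        have h2 := hCmin X (by rw [mem_filter, mem_powerset]; exact ⟨hX.trans hCD, hXne, h1⟩)
        exact hXC (eq_of_subset_of_card_le hX h2)
      obtain ⟨T1, hT1C, hT1, hT1x⟩ := half_comp hR hComp x
      have hDC : ff I (D \ C) = 0 := by
        have h1 := hR.mixed D C
        have h2 := (hR.ff_zero_iff_hh_zero C).1 hC0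
        have h3 := hR.ff_nonneg (D \ C)
        have h4 := hR.hh_nonneg (C \ D)
        omega
      have hcard : (D \ C).card < n := by
        rw [← hD]
        obtain ⟨z, hz⟩ := hCne
        exact card_lt_card ⟨sdiff_subset, fun h => (mem_sdiff.1 (h (hCD hz))).2 hz⟩
      obtain ⟨T2, hT2C, hT2, hT2x⟩ := ih _ hcard (D \ C) rfl hDC
      refine ⟨T1 ∪ T2, union_subset (hT1C.trans hCD) (hT2C.trans sdiff_subset), fun q hq => ?_, ?_⟩
      · by_cases hqC : (I q ∩ C).Nonempty
        · have h1 : I q ⊆ C := by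
            by_contra hcon
            have h2 : q ∈ CR I C := mem_CR.2 ⟨hqC, hcon⟩
            rw [hR.CR_empty_of_ff hC0] at h2
            simp at h2
          exact (hT1 q h1).mono (inter_subset_inter_left subset_union_left)
        · have h1 : I q ⊆ D \ C := by
            intro y hy
            exact mem_sdiff.2 ⟨hq hy, fun h => hqC ⟨y, mem_inter.2 ⟨hy, h⟩⟩⟩
          exact (hT2 q h1).mono (inter_subset_inter_left subset_union_right)
      · rw [sum_union (disjoint_of_subset_left hT1C (disjoint_of_subset_right hT2C disjoint_sdiff))]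
        have := sum_sdiff (f := x) hCD
        linarith

/-- **Light transversals.** In a 3-uniform 3-regular hypergraph, for every weighting of the points
some transversal has at most half the total weight. -/
theorem exists_light (hR : Reg I) (x : P → ℝ) :
    ∃ T : Finset P, (∀ q, (I q ∩ T).Nonempty) ∧ 2 * ∑ p ∈ T, x p ≤ ∑ p, x p := by
  have h0 : ff I univ = 0 := by
    have h1 := hR.sum_CR_inter univ
    have h2 : CR I univ = ∅ := by
      ext q
      rw [mem_CR]
      simp
    rw [h2, sum_empty] at h1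
    omega
  obtain ⟨T, -, h1, h2⟩ := half_closed hR x _ univ rfl h0
  exact ⟨T, fun q => h1 q (subset_univ _), h2⟩

end Pool.Agent.W168.FT
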