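import Mathlib
import Pool.Agent.W168.FT4

set_option autoImplicit false

/-!
# Duality: from light transversals to a fractional packing
-/

open Finset

namespace Pool.Agent.W168.FT

variable {P : Type*} [Fintype P] [DecidableEq P]

/-- the covering vector of a weighting of sets -/
noncomputable def cov : (Finset P → ℝ) →ₗ[ℝ] (P → ℝ) where
  toFun w := fun p => ∑ S ∈ univ.filter (fun S : Finset P => p ∈ S), w S
  map_add' w w' := by
    ext p
    simp [sum_add_distrib]
  map_smul' c w := by
    ext p
    simp [mul_sum]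

lemma cov_apply (w : Finset P → ℝ) (p : P) :
    cov w p = ∑ S ∈ univ.filter (fun S : Finset P => p ∈ S), w S := rfl

lemma cov_continuous : Continuous (cov (P := P)) := by
  apply continuous_pi
  intro p
  simp_rw [cov_apply]
  exact continuous_finsetSum _ fun S _ => continuous_apply S

lemma cov_single (T : Finset P) : cov (Pi.single T (1 : ℝ)) = fun p => if p ∈ T then (1 : ℝ) else 0 := by
  ext p
  rw [cov_apply]
  by_cases h : p ∈ T
  · rw [if_pos h, sum_eq_single T]
    · simp
    · intro S _ hS
      rw [Pi.single_eq_of_ne hS]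
    · intro h'
      exact (h' (mem_filter.2 ⟨mem_univ _, h⟩)).elim
  · rw [if_neg h]
    apply sum_eq_zero
    intro S hS
    rw [Pi.single_eq_of_ne]
    rintro rfl
    exact h (mem_filter.1 hS).2

/-- **Fractional packing from light members.** If for every weighting some member of the family `A`
has at most half the total weight, then there is a fractional packing of value `2`. -/
theorem packing (A : Finset P → Prop)
    (hA : ∀ x : P → ℝ, ∃ T, A T ∧ 2 * ∑ p ∈ T, x p ≤ ∑ p, x p) :
    ∃ w : Finset P → ℝ, (∀ S, 0 ≤ w S) ∧ (∀ S, w S ≠ 0 → A S) ∧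
      (∀ v : P, ∑ S ∈ univ.filter (fun S : Finset P => v ∈ S), w S ≤ 1) ∧ 2 ≤ ∑ S, w S := by
  classical
  set K₀ : Set (Finset P → ℝ) := stdSimplex ℝ (Finset P) ∩ {w | ∀ S, ¬ A S → w S = 0} with hK₀
  have hK₀c : IsCompact K₀ := by
    apply (isCompact_stdSimplex ℝ (Finset P)).inter_right
    have : {w : Finset P → ℝ | ∀ S, ¬ A S → w S = 0} = ⋂ S, ⋂ (_ : ¬ A S), {w | w S = 0} := by
      ext w; simp
    rw [this]
    refine isClosed_iInter fun S => isClosed_iInter fun _ => ?_
    exact isClosed_eq (continuous_apply S) continuous_const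
  have hK₀v : Convex ℝ K₀ := by
    apply (convex_stdSimplex ℝ (Finset P)).inter
    intro w hw w' hw' a b _ _ _ S hS
    simp [hw S hS, hw' S hS]
  set K : Set (P → ℝ) := cov '' K₀ with hK
  have hKc : IsCompact K := hK₀c.image cov_continuous
  have hKv : Convex ℝ K := hK₀v.linear_image cov
  set D : Set (P → ℝ) := {z | ∀ p, z p ≤ 1 / 2} with hD
  have hDc : IsClosed D := by
    have : D = ⋂ p, {z : P → ℝ | z p ≤ 1 / 2} := by
      ext z; simp [hD]
    rw [this]
    exact isClosed_iInter fun p => isClosed_le (continuous_apply p) continuous_const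
  have hDv : Convex ℝ D := by
    intro z hz z' hz' a b ha hb hab p
    have h1 := hz p
    have h2 := hz' p
    simp only [Pi.add_apply, Pi.smul_apply, smul_eq_mul]
    calc a * z p + b * z' p ≤ a * (1/2) + b * (1/2) := by gcongr
      _ = 1 / 2 := by rw [← add_mul, hab, one_mul]
  by_cases hdis : Disjoint K D
  · exfalso
    obtain ⟨f, a, b, hfa, hab, hfb⟩ := geometric_hahn_banach_compact_closed hKv hKc hDv hDc hdis
    have hf : ∀ z : P → ℝ, f z = ∑ p, z p * f (Pi.single p 1) := by
      intro z
      conv_lhs => rw [← univ_sum_single z, map_sum]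
      apply sum_congr rfl
      intro p _
      have : Pi.single p (z p) = z p • (Pi.single p (1:ℝ) : P → ℝ) := by
        rw [← Pi.single_smul]
        simp
      rw [this, map_smul, smul_eq_mul]
    obtain ⟨T, hAT, hT⟩ := hA (fun p => - f (Pi.single p 1))
    have h1 : (fun p => if p ∈ T then (1 : ℝ) else 0) ∈ K := by
      refine ⟨Pi.single T 1, ⟨?_, ?_⟩, cov_single T⟩
      · exact single_mem_stdSimplex ℝ T
      · intro S hS
        rw [Pi.single_eq_of_ne]
        rintro rfl
        exact hS hAT
    have h2 : (fun _ : P => (1:ℝ)/2) ∈ D := fun p => le_rfl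
    have h3 := hfa _ h1
    have h4 := hfb _ h2
    rw [hf] at h3 h4
    simp only [ite_mul, one_mul, zero_mul, sum_ite_mem, univ_inter] at h3
    rw [← mul_sum] at h4
    simp only [sum_neg_distrib] at hT
    linarith
  · rw [Set.not_disjoint_iff] at hdis
    obtain ⟨z, ⟨w, hw, rfl⟩, hz⟩ := hdis
    refine ⟨fun S => 2 * w S, fun S => ?_, fun S hS => ?_, fun v => ?_, ?_⟩
    · have := hw.1.1 S
      positivity
    · by_contra hcon
      exact hS (by simp [hw.2 S hcon])
    · have := hz v
      rw [cov_apply] at this
      rw [← mul_sum]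
      linarith
    · rw [← mul_sum, hw.1.2]
      norm_num

end Pool.Agent.W168.FT
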