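import Pool.Agent.W550.LG.StmV

/-!
# Laugwitz' problem, Part V, LG-DN: the whole downward swing
-/

open Set

namespace Pool.Agent.W168.LG

open Pool.Agent.W550.LG

theorem Sys.restrict {t C N N' : ℝ} {lam k c a th : ℝ → ℝ} {x x' y : ℝ}
    (h : Sys t C N lam k c a th x y) (hx : x ≤ x') (hN : N ≤ N')
    (hc : ∀ r ∈ Icc x x', |c r| ≤ N') : Sys t C N' lam k c a th x' y := by
  refine ⟨?_, ?_, h.k_cont, h.th_cont, ?_, ?_, ?_⟩
  · intro s hs
    exact h.dc s ⟨hx.trans hs.1, hs.2⟩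
  · intro s hs
    exact h.da s ⟨hx.trans hs.1, hs.2⟩
  · intro s hs
    exact h.k_le s ⟨hx.trans hs.1, hs.2⟩
  · intro s hs
    exact h.le_k s ⟨hx.trans hs.1, hs.2⟩
  · intro s hs M hM hr
    refine h.th_le s ⟨hx.trans hs.1, hs.2⟩ M (hN.trans hM) ?_
    intro r hr'
    rcases le_total r x' with h1 | h1
    · exact (hc r ⟨hr'.1, h1⟩).trans hM
    · exact hr r ⟨h1, hr'.2⟩

theorem main : S_D1 → S_D2 → S_D3 → S_DN := by
  intro D1 D2 D3 x y Φ lam Lam hlam hLam hxy hneg hy0 hLs hΦ hΦ2 hΦ3 C g G hC hg hG hGπ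
  set z : ℝ := (x + y) / 2 with hz
  have hxz : x < z := by rw [hz]; linarith
  have hzy : z < y := by rw [hz]; linarith
  obtain ⟨ε0, hε0, H2⟩ := D2 x y Φ lam Lam hlam.continuous hLam hxy hneg hΦ hΦ2 hΦ3 C hC
  set ε : ℝ := min ε0 ((y - z) / 12) with hε
  have hεpos : 0 < ε := lt_min hε0 (by linarith)
  have hε1 : ε ≤ ε0 := min_le_left _ _
  have hε2 : ε ≤ (y - z) / 12 := min_le_right _ _
  obtain ⟨T1, c1, C2, hT1, hc1, hC2, H1⟩ :=
    D1 x y z lam Lam hlam.continuous hLam hxz hzy.le hneg hLs C g G ε hC hg hG hGπ hεpos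
  obtain ⟨C2', hC2', H2⟩ := H2 ε hεpos hε1
  obtain ⟨T2, hT2, H2⟩ := H2 (c1 / C2) 1 (by positivity) le_rfl
  set x' : ℝ := z + 3 * ε with hx'
  have hx'y : x' < y := by rw [hx']; linarith
  have hzx' : z ≤ x' := by rw [hx']; linarith
  have hC2p : (0 : ℝ) < C2 := by linarith
  have hC2p' : (0 : ℝ) < C2' := by linarith
  obtain ⟨T3, c3, hT3, hc3, H3⟩ := D3 x' y lam hlam hx'y
    (fun s hs => hneg s ⟨(hxz.le.trans hzx').trans hs.1, hs.2⟩) hy0 C (c1 / (C2' * (C2 * C2'))) 1 hC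
    (by positivity) le_rfl
  refine ⟨max T1 (max T2 T3), min (c1 / C2') c3, C2 * C2', hT1.trans (le_max_left _ _),
    lt_min (by positivity) hc3, one_le_mul_of_one_le_of_one_le hC2 hC2', ?_⟩
  intro t ht k c a th N θ hN hS hθ1 hθ2 hcx hax
  have ht1 : T1 ≤ t := (le_max_left _ _).trans ht
  have ht2 : T2 ≤ t := ((le_max_left _ _).trans (le_max_right _ _)).trans ht
  have ht3 : T3 ≤ t := ((le_max_right _ _).trans (le_max_right _ _)).trans ht
  have htp : 0 < t := by linarith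
  have hst : 0 < Real.sqrt t := Real.sqrt_pos.mpr htp
  obtain ⟨s1, hs1, hA, hB⟩ := H1 t ht1 k c a th N θ hN hS hθ1 hθ2 hcx hax
  have hs1y : s1 ≤ y := hs1.2.trans hzy.le
  have hAs1 := hA s1 ⟨hs1.1, le_rfl⟩
  have hNN' : N ≤ C2 * N := le_mul_of_one_le_left hN.le hC2
  have hS1 : Sys t C (C2 * N) lam k c a th s1 y :=
    Sys.restrict hS hs1.1 hNN' (fun r hr => (hA r hr).2.1)
  have hB2 := H2 t ht2 k c a th (C2 * N) s1 (by positivity) ⟨hs1.1, hs1y⟩ hS1 hAs1.1 hB
    (by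
      have : c1 / C2 / Real.sqrt t * (C2 * N) = c1 / Real.sqrt t * N := by
        field_simp
      rw [this]; exact hAs1.2.2)
    (by rw [one_mul]; exact hAs1.2.1)
  -- bounds on the whole interval
  have hbd : ∀ s ∈ Icc x y, c s < 0 ∧ |c s| ≤ C2 * C2' * N := by
    intro s hs
    rcases le_total s s1 with h1 | h1
    · have := hA s ⟨hs.1, h1⟩
      refine ⟨this.1, this.2.1.trans ?_⟩
      have h12 : C2 * N ≤ C2 * N * C2' := le_mul_of_one_le_right (by positivity) hC2'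
      calc C2 * N ≤ C2 * N * C2' := h12
        _ = C2 * C2' * N := by ring
    · have := hB2 s ⟨h1, hs.2⟩
      refine ⟨this.1, this.2.2.1.trans ?_⟩
      have h2 := hAs1.2.1
      calc C2' * |c s1| ≤ C2' * (C2 * N) := by gcongr
        _ = C2 * C2' * N := by ring
  have hlow : ∀ s ∈ Icc s1 y, c1 / C2' / Real.sqrt t * N ≤ |c s| := by
    intro s hs
    have h1 := (hB2 s hs).2.1
    have h2 := hAs1.2.2
    have h3 : c1 / Real.sqrt t * N ≤ C2' * |c s| := h2.trans h1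
    have h4 : c1 / C2' / Real.sqrt t * N = (c1 / Real.sqrt t * N) / C2' := by
      field_simp
    rw [h4, div_le_iff₀ hC2p']
    linarith
  have hy2 := hB2 y ⟨hs1y, le_rfl⟩
  have hmin1 : min (c1 / C2') c3 ≤ c1 / C2' := min_le_left _ _
  have hmin3 : min (c1 / C2') c3 ≤ c3 := min_le_right _ _
  refine ⟨hbd, ?_, ?_, ?_⟩
  · refine le_trans ?_ (hlow y ⟨hs1y, le_rfl⟩)
    gcongr
  · have hS3 : Sys t C (C2 * C2' * N) lam k c a th x' y := by
      refine Sys.restrict hS (hxz.le.trans hzx') ?_ ?_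
      · have h11 : 1 ≤ C2 * C2' := one_le_mul_of_one_le_of_one_le hC2 hC2'
        exact le_mul_of_one_le_left hN.le h11
      · intro r hr
        exact (hbd r ⟨hr.1, hr.2.trans hx'y.le⟩).2
    have h3 := H3 t ht3 k c a th (C2 * C2' * N) (by positivity) hS3 (by
      intro s hs
      have hs1s : s1 + 3 * ε ≤ s := by
        have := hs.1
        rw [hx'] at this
        linarith [hs1.2]
      have hs1s' : s1 ≤ s := by linarith
      have hq := hB2 s ⟨hs1s', hs.2⟩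
      refine ⟨hq.1, ?_, ?_, hq.2.2.2.2.2 hs1s⟩
      · have : c1 / (C2' * (C2 * C2')) / Real.sqrt t * (C2 * C2' * N) =
            c1 / C2' / Real.sqrt t * N := by
          field_simp
        rw [this]
        exact hlow s ⟨hs1s', hs.2⟩
      · rw [one_mul]
        exact (hbd s ⟨hs1.1.trans hs1s', hs.2⟩).2)
    refine le_trans ?_ h3
    gcongr
  · refine hy2.2.2.2.2.1.trans ?_
    gcongr
    exact le_mul_of_one_le_left hC2p'.le hC2

end Pool.Agent.W168.LG
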