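import Pool.Agent.W213.MG.Stm

/-! MG-ARI: every small number is some `U n f`. -/

set_option autoImplicit false

namespace Pool.Agent.W168.MG

open Finset

/-- the staircase `d` ends at level `p`, and its first `N` terms have sum `v` -/
def R (p N v : ℕ) : Prop := ∃ d : ℕ → ℕ, d 0 = 0 ∧ (∀ r, d (r + 1) = d r ∨ d (r + 1) = d r + 1) ∧
  (∀ r, N ≤ r + 1 → d r = p) ∧ 1 ≤ N ∧ ∑ r ∈ range N, (2 ^ (d r) - 1) = v

theorem R_zero : R 0 1 0 := ⟨fun _ => 0, rfl, fun _ => Or.inl rfl, fun _ _ => rfl, le_rfl, by simp⟩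

theorem R_same {p N v : ℕ} (h : R p N v) : R p (N + 1) (v + (2 ^ p - 1)) := by
  obtain ⟨d, h0, h1, h2, h3, h4⟩ := h
  refine ⟨d, h0, h1, fun r hr => h2 r (by omega), by omega, ?_⟩
  rw [Finset.sum_range_succ, h4, h2 N (by omega)]

theorem R_up {p N v : ℕ} (h : R p N v) : R (p + 1) (N + 1) (v + (2 ^ (p + 1) - 1)) := by
  obtain ⟨d, h0, h1, h2, h3, h4⟩ := h
  refine ⟨fun r => if r < N then d r else p + 1, ?_, ?_, ?_, by omega, ?_⟩
  · show (if 0 < N then d 0 else p + 1) = 0
    rw [if_pos (by omega), h0]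
  · intro r
    show (if r + 1 < N then d (r + 1) else p + 1) = (if r < N then d r else p + 1) ∨
      (if r + 1 < N then d (r + 1) else p + 1) = (if r < N then d r else p + 1) + 1
    by_cases hr : r + 1 < N
    · rw [if_pos hr, if_pos (by omega)]
      exact h1 r
    · by_cases hr' : r < N
      · rw [if_neg hr, if_pos hr', h2 r (by omega)]
        right
        rfl
      · rw [if_neg hr, if_neg hr']
        left
        rfl
  · intro r hr
    show (if r < N then d r else p + 1) = p + 1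
    rw [if_neg (by omega)]
  · rw [Finset.sum_range_succ, ← h4]
    show ∑ r ∈ range N, (2 ^ (if r < N then d r else p + 1) - 1) +
      (2 ^ (if N < N then d N else p + 1) - 1) = _
    rw [if_neg (lt_irrefl N)]
    congr 1
    refine Finset.sum_congr rfl (fun r hr => ?_)
    rw [if_pos (Finset.mem_range.1 hr)]

theorem R_same_iter {p N v : ℕ} (h : R p N v) (j : ℕ) : R p (N + j) (v + j * (2 ^ p - 1)) := by
  induction j with
  | zero => simpa using h
  | succ j ih =>
    have h1 := R_same ih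
    have e1 : N + (j + 1) = N + j + 1 := by omega
    have e2 : v + (j + 1) * (2 ^ p - 1) = v + j * (2 ^ p - 1) + (2 ^ p - 1) := by ring
    rw [e1, e2]
    exact h1

theorem R_up_iter {p N v : ℕ} (h : R p N v) (j : ℕ) (hj : 1 ≤ j) :
    R (p + 1) (N + j) (v + j * (2 ^ (p + 1) - 1)) := by
  obtain ⟨i, rfl⟩ : ∃ i, j = i + 1 := ⟨j - 1, by omega⟩
  have h1 := R_same_iter (R_up h) i
  have e1 : N + (i + 1) = N + 1 + i := by omega
  have e2 : v + (i + 1) * (2 ^ (p + 1) - 1)
      = v + (2 ^ (p + 1) - 1) + i * (2 ^ (p + 1) - 1) := by ring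
  rw [e1, e2]
  exact h1

theorem R_mult (m : ℕ → ℕ) (hm : ∀ t, 1 ≤ m t) (p : ℕ) :
    R p (∑ t ∈ range (p + 1), m t) (∑ t ∈ range (p + 1), m t * (2 ^ t - 1)) := by
  induction p with
  | zero =>
    have h1 := R_same_iter R_zero (m 0 - 1)
    have e1 : 1 + (m 0 - 1) = m 0 := by
      have := hm 0
      omega
    rw [e1] at h1
    simpa using h1
  | succ p ih =>
    rw [Finset.sum_range_succ _ (p + 1), Finset.sum_range_succ _ (p + 1)]
    exact R_up_iter ih (m (p + 1)) (hm _)

theorem greedy (p : ℕ) : ∀ x : ℕ, x + 2 ≤ 2 ^ (p + 1) → ∃ c : ℕ → ℕ,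
    ∑ t ∈ range (p + 1), c t ≤ p + 1 ∧ ∑ t ∈ range (p + 1), c t * (2 ^ t - 1) = x := by
  induction p with
  | zero =>
    intro x hx
    refine ⟨fun _ => 0, by simp, ?_⟩
    simp only [zero_add, pow_one] at hx
    have : x = 0 := by omega
    simp [this]
  | succ p ih =>
    intro x hx
    have key : ∀ (c : ℕ → ℕ) (k : ℕ) (g : ℕ → ℕ → ℕ),
        ∑ t ∈ range (p + 1 + 1), g (Function.update c (p + 1) k t) t
          = ∑ t ∈ range (p + 1), g (c t) t + g k (p + 1) := by
      intro c k g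
      rw [Finset.sum_range_succ, Function.update_self]
      congr 1
      refine Finset.sum_congr rfl (fun t ht => ?_)
      have : t ≠ p + 1 := by
        have := Finset.mem_range.1 ht
        omega
      rw [Function.update_of_ne this]
    have hpow : 2 ^ (p + 1 + 1) = 2 * 2 ^ (p + 1) := by ring
    have hpos : 1 ≤ 2 ^ (p + 1) := Nat.one_le_two_pow
    by_cases h1 : x + 2 ≤ 2 ^ (p + 1)
    · obtain ⟨c, hc1, hc2⟩ := ih x h1
      refine ⟨Function.update c (p + 1) 0, ?_, ?_⟩
      · have e1 := key c 0 (fun a _ => a)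
        rw [e1]
        omega
      · have e1 := key c 0 (fun a t => a * (2 ^ t - 1))
        rw [e1, hc2]
        simp
    · by_cases h2 : x + 2 = 2 ^ (p + 1 + 1)
      · refine ⟨Function.update (fun _ => 0) (p + 1) 2, ?_, ?_⟩
        · have e1 := key (fun _ => 0) 2 (fun a _ => a)
          rw [e1]
          simp
        · have e1 := key (fun _ => 0) 2 (fun a t => a * (2 ^ t - 1))
          rw [e1]
          simp only [zero_mul, Finset.sum_const_zero, zero_add]
          omega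
      · obtain ⟨c, hc1, hc2⟩ := ih (x - (2 ^ (p + 1) - 1)) (by omega)
        refine ⟨Function.update c (p + 1) 1, ?_, ?_⟩
        · have e1 := key c 1 (fun a _ => a)
          rw [e1]
          omega
        · have e1 := key c 1 (fun a t => a * (2 ^ t - 1))
          rw [e1, hc2]
          omega

theorem sum_B (p : ℕ) : ∑ t ∈ range (p + 1), (2 ^ t - 1) + p + 2 = 2 ^ (p + 1) := by
  induction p with
  | zero => simp
  | succ p ih =>
    rw [Finset.sum_range_succ]
    have hpow : 2 ^ (p + 1 + 1) = 2 * 2 ^ (p + 1) := by ring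
    have hpos : 1 ≤ 2 ^ (p + 1) := Nat.one_le_two_pow
    omega

theorem level (p x N : ℕ) (hx : x + 2 ≤ 2 ^ (p + 1)) (hN : 2 * p + 2 ≤ N) :
    R p N (∑ t ∈ range (p + 1), (2 ^ t - 1) + x) := by
  obtain ⟨c, hc1, hc2⟩ := greedy p x hx
  obtain ⟨E, hE⟩ : ∃ E, N = (p + 1) + ∑ t ∈ range (p + 1), c t + E :=
    ⟨N - ((p + 1) + ∑ t ∈ range (p + 1), c t), by omega⟩
  have h1 := R_mult (fun t => 1 + c t + if t = 0 then E else 0) (fun t => by
    show 1 ≤ 1 + c t + if t = 0 then E else 0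
    omega) p
  have e1 : ∑ t ∈ range (p + 1), (1 + c t + if t = 0 then E else 0) = N := by
    rw [Finset.sum_add_distrib, Finset.sum_add_distrib, Finset.sum_ite_eq' (range (p + 1)) 0
      (fun _ => E), if_pos (Finset.mem_range.2 (Nat.succ_pos p)), hE]
    simp
  have e2 : ∑ t ∈ range (p + 1), (1 + c t + if t = 0 then E else 0) * (2 ^ t - 1)
      = ∑ t ∈ range (p + 1), (2 ^ t - 1) + x := by
    have e3 : ∀ t ∈ range (p + 1), (1 + c t + if t = 0 then E else 0) * (2 ^ t - 1)
        = (2 ^ t - 1) + c t * (2 ^ t - 1) := by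
      intro t _
      by_cases ht : t = 0
      · subst ht
        simp
      · rw [if_neg ht]
        ring
    rw [Finset.sum_congr rfl e3, Finset.sum_add_distrib, hc2]
  rw [e1, e2] at h1
  exact h1

theorem exists_R (P : ℕ) : ∀ u : ℕ, u + P + 4 ≤ 2 ^ (P + 2) → ∀ N, 2 * P + 2 ≤ N →
    ∃ p, R p N u := by
  induction P with
  | zero =>
    intro u hu N hN
    have hu0 : u = 0 := by
      norm_num at hu
      exact hu
    have h1 := level 0 0 N (by norm_num) hN
    refine ⟨0, ?_⟩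
    rw [hu0]
    simpa using h1
  | succ P ih =>
    intro u hu N hN
    by_cases h1 : u + P + 4 ≤ 2 ^ (P + 2)
    · exact ih u h1 N (by omega)
    · have hB := sum_B (P + 1)
      have hpow : 2 ^ (P + 1 + 2) = 2 * 2 ^ (P + 2) := by ring
      have e1 : P + 1 + 1 = P + 2 := rfl
      rw [e1] at hB
      obtain ⟨x, hx⟩ : ∃ x, u = ∑ t ∈ range (P + 2), (2 ^ t - 1) + x :=
        ⟨u - ∑ t ∈ range (P + 2), (2 ^ t - 1), by omega⟩
      refine ⟨P + 1, ?_⟩
      rw [hx]
      exact level (P + 1) x N (by rw [e1]; omega) (by omega)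

theorem main_d (n u : ℕ) (hn : 4 ≤ n) (hu : u + n / 2 + 2 ≤ 2 ^ (n / 2)) :
    ∃ d : ℕ → ℕ, d 0 = 0 ∧ (∀ r, d (r + 1) = d r ∨ d (r + 1) = d r + 1) ∧
      ∑ r ∈ range (n - 2), (2 ^ (d r) - 1) = u := by
  obtain ⟨P, hP⟩ : ∃ P, n / 2 = P + 2 := ⟨n / 2 - 2, by omega⟩
  rw [hP] at hu
  obtain ⟨p, d, h0, h1, -, -, h4⟩ := exists_R P u (by omega) (n - 2) (by omega)
  exact ⟨d, h0, h1, h4⟩

theorem exists_f (ρ : (ℕ → Bool) → ℕ → ℕ) (hρ0 : ∀ f, ρ f 0 = 0)
    (hρ : ∀ f r, ρ f (r + 1) = ρ f r + (if f (r + 1) = false then 1 else 0)) (n u : ℕ)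
    (hn : 4 ≤ n) (hu : u + n / 2 + 2 ≤ 2 ^ (n / 2)) :
    ∃ f : ℕ → Bool, ∑ r ∈ range (n - 2), (2 ^ (ρ f r) - 1) = u := by
  obtain ⟨d, h0, h1, h2⟩ := main_d n u hn hu
  obtain ⟨f, hf⟩ : ∃ f : ℕ → Bool, f = fun y => decide (d y = d (y - 1)) := ⟨_, rfl⟩
  refine ⟨f, ?_⟩
  have hd : ∀ r, ρ f r = d r := by
    intro r
    induction r with
    | zero => rw [hρ0, h0]
    | succ r ih =>
      rw [hρ, ih]
      have e1 : f (r + 1) = decide (d (r + 1) = d r) := by
        rw [hf]
        rfl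
      rw [e1]
      rcases h1 r with h | h
      · simp [h]
      · simp [h]
  rw [← h2]
  exact Finset.sum_congr rfl (fun r _ => by rw [hd r])

theorem rho_guess (f : ℕ → Bool) (r : ℕ) :
    ((Finset.Icc 1 (r + 1)).filter (fun y => f y = false)).card
      = ((Finset.Icc 1 r).filter (fun y => f y = false)).card
        + (if f (r + 1) = false then 1 else 0) := by
  have e1 : Finset.Icc 1 (r + 1) = insert (r + 1) (Finset.Icc 1 r) := by
    ext y
    simp only [Finset.mem_Icc, Finset.mem_insert]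
    omega
  rw [e1, Finset.filter_insert]
  split_ifs with h
  · rw [Finset.card_insert_of_notMem]
    simp
  · simp

theorem ari : Pool.Agent.W213.MG.ARI := by
  intro n u hn hu
  exact exists_f Pool.Agent.W213.MG.rho (fun f => by simp [Pool.Agent.W213.MG.rho])
    (fun f r => rho_guess f r) n u hn hu

end Pool.Agent.W168.MG
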