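import Pool.Agent.W886.RU.Stm1

/-! RU-CKT (helper168, for helper886): formulas are circuits of constant depth and polynomial size -/

set_option autoImplicit false

namespace Pool.Agent.W168.RUCKT

open Finset H568R2 Pool.Agent.H676 Pool.Agent.W886.RU

/-- polynomial bound -/
theorem poly_bd {n : ℕ} (p : MvPolynomial (Fin n) ℕ) : ∃ c : ℕ, ∀ (m : ℕ) (v : Fin n → ℕ),
    (∀ i, v i ≤ m) → MvPolynomial.eval v p < (m + 2) ^ c := by
  induction p using MvPolynomial.induction_on with
  | C a =>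
    refine ⟨a, fun m v _ => ?_⟩
    rw [MvPolynomial.eval_C]
    calc a < 2 ^ a := Nat.lt_two_pow_self
      _ ≤ (m + 2) ^ a := Nat.pow_le_pow_left (by omega) a
  | add p q hp hq =>
    obtain ⟨c1, h1⟩ := hp
    obtain ⟨c2, h2⟩ := hq
    refine ⟨max c1 c2 + 1, fun m v hv => ?_⟩
    have a1 := h1 m v hv
    have a2 := h2 m v hv
    have b1 : (m + 2) ^ c1 ≤ (m + 2) ^ (max c1 c2) := Nat.pow_le_pow_right (by omega) (le_max_left _ _)
    have b2 : (m + 2) ^ c2 ≤ (m + 2) ^ (max c1 c2) := Nat.pow_le_pow_right (by omega) (le_max_right _ _)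
    rw [map_add, pow_succ]
    have : (m + 2) ^ (max c1 c2) * 2 ≤ (m + 2) ^ (max c1 c2) * (m + 2) :=
      Nat.mul_le_mul_left _ (by omega)
    omega
  | mul_X p i hp =>
    obtain ⟨c1, h1⟩ := hp
    refine ⟨c1 + 1, fun m v hv => ?_⟩
    have a1 := h1 m v hv
    have a2 : v i < m + 2 := by
      have := hv i
      omega
    rw [map_mul, MvPolynomial.eval_X, pow_succ]
    exact Nat.mul_lt_mul'' a1 a2

/-- negation -/
def neg {I : Type} : Ckt I → Ckt I
  | Ckt.leaf f => Ckt.leaf (fun a => !(f a))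
  | Ckt.gate b n c => Ckt.gate (!b) n (fun i => neg (c i))

theorem neg_size {I : Type} (C : Ckt I) : (neg C).size = C.size := by
  induction C with
  | leaf f => rfl
  | gate b n c ih =>
    simp only [neg, Ckt.size, ih]

theorem neg_depth {I : Type} (C : Ckt I) : ∀ k : ℕ, C.DepthLe k → (neg C).DepthLe k := by
  induction C with
  | leaf f =>
    intro k _
    cases k <;> simp [neg, Ckt.DepthLe]
  | gate b n c ih =>
    intro k h
    cases k with
    | zero => simp [Ckt.DepthLe] at h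
    | succ k =>
      simp only [neg, Ckt.DepthLe] at h ⊢
      exact fun i => ih i k (h i)

theorem neg_leaves {I : Type} [Fintype I] [DecidableEq I] (t : ℕ) (C : Ckt I) (h : C.Leaves t) :
    (neg C).Leaves t := by
  induction C with
  | leaf f =>
    simp only [neg, Ckt.Leaves] at h ⊢
    exact DTr.comp (fun b => !b) h
  | gate b n c ih =>
    simp only [neg, Ckt.Leaves] at h ⊢
    exact fun i => ih i (h i)

theorem neg_val {I : Type} (C : Ckt I) (a : I → Bool) : (neg C).val a = !(C.val a) := by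
  induction C with
  | leaf f => simp [neg, Ckt.val]
  | gate b n c ih =>
    cases b
    · simp only [neg, Ckt.val, Bool.not_false, ih]
      rw [← decide_not]
      congr 1
      apply propext
      rw [not_forall]
      constructor
      · rintro ⟨i, hi⟩
        exact ⟨i, by simpa using hi⟩
      · rintro ⟨i, hi⟩
        exact ⟨i, by simpa using hi⟩
    · simp only [neg, Ckt.val, Bool.not_true, ih]
      rw [← decide_not]
      congr 1
      apply propext
      rw [not_exists]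
      constructor
      · intro h i
        simpa using h i
      · intro h i
        simpa using h i

theorem depth_mono {I : Type} (C : Ckt I) : ∀ k k' : ℕ, k ≤ k' → C.DepthLe k → C.DepthLe k' := by
  induction C with
  | leaf f =>
    intro k k' _ _
    cases k' <;> simp [Ckt.DepthLe]
  | gate b n c ih =>
    intro k k' hk h
    cases k with
    | zero => simp [Ckt.DepthLe] at h
    | succ k =>
      cases k' with
      | zero => omega
      | succ k' =>
        simp only [Ckt.DepthLe] at h ⊢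
        exact fun i => ih i k k' (by omega) (h i)

theorem depth_leaf {I : Type} (k : ℕ) (f : (I → Bool) → Bool) : (Ckt.leaf f).DepthLe k := by
  cases k <;> simp [Ckt.DepthLe]

theorem task : Pool.Agent.W886.RU.S_CKT := by
  intro n Φ hΦ
  induction hΦ with
  | @eq n p q =>
    refine ⟨0, 0, fun m N v _ _ => ⟨Ckt.leaf (fun _ => decide (MvPolynomial.eval v p = MvPolynomial.eval v q)),
      depth_leaf _ _, ?_, ?_, ?_⟩⟩
    · simp [Ckt.size]
    · simp only [Ckt.Leaves]
      exact DTr.const ⟨_, fun _ => rfl⟩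
    · intro A
      simp [Ckt.val]
  | @le n p q =>
    refine ⟨0, 0, fun m N v _ _ => ⟨Ckt.leaf (fun _ => decide (MvPolynomial.eval v p ≤ MvPolynomial.eval v q)),
      depth_leaf _ _, ?_, ?_, ?_⟩⟩
    · simp [Ckt.size]
    · simp only [Ckt.Leaves]
      exact DTr.const ⟨_, fun _ => rfl⟩
    · intro A
      simp [Ckt.val]
  | @orc n p =>
    obtain ⟨c, hc⟩ := poly_bd p
    refine ⟨0, c, fun m N v hv hN => ?_⟩
    have h1 := hc m v hv
    refine ⟨Ckt.leaf (fun a => a ⟨MvPolynomial.eval v p, lt_of_lt_of_le h1 hN⟩), depth_leaf _ _, ?_, ?_, ?_⟩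
    · simp only [Ckt.size]
      exact Nat.one_le_pow _ _ (by omega)
    · simp only [Ckt.Leaves]
      refine Or.inr ⟨⟨MvPolynomial.eval v p, lt_of_lt_of_le h1 hN⟩, fun b => ?_⟩
      exact ⟨b, fun x => Function.update_self _ _ _⟩
    · intro A
      simp [Ckt.val]
  | @not n P _ ih =>
    obtain ⟨k, c, ih⟩ := ih
    refine ⟨k, c, fun m N v hv hN => ?_⟩
    obtain ⟨C, h1, h2, h3, h4⟩ := ih m N v hv hN
    refine ⟨neg C, neg_depth C k h1, ?_, neg_leaves 1 C h3, ?_⟩
    · rw [neg_size]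
      exact h2
    · intro A
      show (neg C).val (fun i => A i) = true ↔ ¬ P A v
      rw [neg_val, ← h4 A]
      simp
  | @and n P Q _ _ ih1 ih2 =>
    obtain ⟨k1, c1, ih1⟩ := ih1
    obtain ⟨k2, c2, ih2⟩ := ih2
    refine ⟨max k1 k2 + 1, max c1 c2 + 2, fun m N v hv hN => ?_⟩
    have b1 : (m + 2) ^ c1 ≤ (m + 2) ^ (max c1 c2) := Nat.pow_le_pow_right (by omega) (le_max_left _ _)
    have b2 : (m + 2) ^ c2 ≤ (m + 2) ^ (max c1 c2) := Nat.pow_le_pow_right (by omega) (le_max_right _ _)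
    have b3 : (m + 2) ^ (max c1 c2) * 4 ≤ (m + 2) ^ (max c1 c2 + 2) := by
      rw [pow_add]
      apply Nat.mul_le_mul_left
      calc 4 = 2 ^ 2 := by norm_num
        _ ≤ (m + 2) ^ 2 := Nat.pow_le_pow_left (by omega) 2
    have b4 : 1 ≤ (m + 2) ^ (max c1 c2) := Nat.one_le_pow _ _ (by omega)
    obtain ⟨C1, h11, h12, h13, h14⟩ := ih1 m N v hv (by omega)
    obtain ⟨C2, h21, h22, h23, h24⟩ := ih2 m N v hv (by omega)
    refine ⟨Ckt.gate false 2 ![C1, C2], ?_, ?_, ?_, ?_⟩
    · simp only [Ckt.DepthLe]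
      intro i
      fin_cases i
      · exact depth_mono C1 _ _ (le_max_left _ _) h11
      · exact depth_mono C2 _ _ (le_max_right _ _) h21
    · simp only [Ckt.size, Fin.sum_univ_two, Matrix.cons_val_zero, Matrix.cons_val_one]
      omega
    · simp only [Ckt.Leaves]
      intro i
      fin_cases i
      · exact h13
      · exact h23
    · intro A
      show (Ckt.gate false 2 ![C1, C2]).val (fun i => A i) = true ↔ (P A v ∧ Q A v)
      rw [← h14 A, ← h24 A]
      simp [Ckt.val, Fin.forall_fin_two]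
  | @bex n P p _ ih =>
    obtain ⟨c1, hc1⟩ := poly_bd p
    obtain ⟨k, c2, ih⟩ := ih
    refine ⟨k + 1, c1 + (c1 + 2) * c2 + 1, fun m N v hv hN => ?_⟩
    have he := hc1 m v hv
    have a0 : 1 ≤ (m + 2) ^ c1 := Nat.one_le_pow _ _ (by omega)
    have a1 : (m + 2) ^ (c1 + 1) + 2 ≤ (m + 2) ^ (c1 + 2) := by
      have e1 : (m + 2) ^ (c1 + 2) = (m + 2) ^ (c1 + 1) * (m + 2) := by ring
      have e2 : (m + 2) ^ (c1 + 1) * 2 ≤ (m + 2) ^ (c1 + 1) * (m + 2) := Nat.mul_le_mul_left _ (by omega)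
      have e3 : (m + 2) ^ (c1 + 1) = (m + 2) ^ c1 * (m + 2) := by ring
      have e4 : 1 * 2 ≤ (m + 2) ^ c1 * (m + 2) := Nat.mul_le_mul a0 (by omega)
      omega
    have a2 : ((m + 2) ^ (c1 + 1) + 2) ^ c2 ≤ (m + 2) ^ ((c1 + 2) * c2) := by
      rw [pow_mul]
      exact Nat.pow_le_pow_left a1 c2
    have a3 : (m + 2) ^ ((c1 + 2) * c2) ≤ (m + 2) ^ (c1 + (c1 + 2) * c2 + 1) :=
      Nat.pow_le_pow_right (by omega) (by omega)
    have hx : ∀ x : Fin (MvPolynomial.eval v p + 1), ∀ i, (Matrix.vecCons (x : ℕ) v : Fin (n + 1) → ℕ) i ≤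
        (m + 2) ^ (c1 + 1) := by
      intro x i
      have e3 : (m + 2) ^ (c1 + 1) = (m + 2) ^ c1 * (m + 2) := by ring
      have e4 : (m + 2) ^ c1 * 1 ≤ (m + 2) ^ c1 * (m + 2) := Nat.mul_le_mul_left _ (by omega)
      have e5 : 1 * (m + 2) ≤ (m + 2) ^ c1 * (m + 2) := Nat.mul_le_mul_right _ a0
      refine Fin.cases ?_ (fun j => ?_) i
      · rw [Matrix.cons_val_zero]
        have := x.2
        omega
      · rw [Matrix.cons_val_succ]
        have := hv j
        omega
    have hex : ∀ x : Fin (MvPolynomial.eval v p + 1), ∃ C : Ckt (Fin N), C.DepthLe k ∧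
        C.size ≤ ((m + 2) ^ (c1 + 1) + 2) ^ c2 ∧ C.Leaves 1 ∧
        ∀ A : ℕ → Bool, (C.val (fun i => A i) = true ↔ P A (Matrix.vecCons (x : ℕ) v)) := by
      intro x
      exact ih ((m + 2) ^ (c1 + 1)) N (Matrix.vecCons (x : ℕ) v) (hx x) (by omega)
    choose C h1 h2 h3 h4 using hex
    refine ⟨Ckt.gate true (MvPolynomial.eval v p + 1) C, ?_, ?_, ?_, ?_⟩
    · simp only [Ckt.DepthLe]
      exact h1
    · simp only [Ckt.size]
      have s1 : ∑ i, (C i).size ≤ (MvPolynomial.eval v p + 1) * (m + 2) ^ ((c1 + 2) * c2) := by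
        calc ∑ i, (C i).size ≤ ∑ _i : Fin (MvPolynomial.eval v p + 1), (m + 2) ^ ((c1 + 2) * c2) :=
              Finset.sum_le_sum (fun i _ => le_trans (h2 i) a2)
          _ = _ := by simp
      have s2 : (MvPolynomial.eval v p + 1) * (m + 2) ^ ((c1 + 2) * c2) ≤
          (m + 2) ^ c1 * (m + 2) ^ ((c1 + 2) * c2) := Nat.mul_le_mul_right _ he
      have s3 : (m + 2) ^ (c1 + (c1 + 2) * c2 + 1) =
          (m + 2) ^ c1 * (m + 2) ^ ((c1 + 2) * c2) * (m + 2) := by ring
      have s4 : 1 ≤ (m + 2) ^ c1 * (m + 2) ^ ((c1 + 2) * c2) :=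
        Nat.mul_pos (by omega) (Nat.pow_pos (by omega))
      have s5 : (m + 2) ^ c1 * (m + 2) ^ ((c1 + 2) * c2) * 2 ≤
          (m + 2) ^ c1 * (m + 2) ^ ((c1 + 2) * c2) * (m + 2) := Nat.mul_le_mul_left _ (by omega)
      omega
    · simp only [Ckt.Leaves]
      exact h3
    · intro A
      simp only [Ckt.val, decide_eq_true_eq, h4]
      constructor
      · rintro ⟨i, hi⟩
        exact ⟨i, by have := i.2; omega, hi⟩
      · rintro ⟨x, hx1, hx2⟩
        exact ⟨⟨x, by omega⟩, hx2⟩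

end Pool.Agent.W168.RUCKT
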