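import Pool.Agent.W982.TA.Grid

/-! TA-I6 (helper168, for helper982): completeness -/

set_option autoImplicit false

namespace Pool.Agent.W982.TA

open Pool.Agent.NPC

theorem i6_nR (φ : List Cl) : 2 ≤ nR φ := by
  unfold nR
  omega

theorem i6_ty (φ : List Cl) (i j : ℕ) : ty φ i j < 8 := by
  unfold ty
  split_ifs <;> norm_num

theorem i6_b (b : Bool) : b.toNat ≤ 1 := by
  cases b <;> decide

theorem i6_st (φ : List Cl) (τ : ℕ → Bool) (i j : ℕ) : st φ τ i j < 4 := by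
  unfold st
  have h1 := i6_b (τ ((i - 1) / 2))
  have h2 := i6_b (lval τ (litRow i))
  have h3 := i6_b (bsig φ τ i j)
  split_ifs <;> omega

theorem i6_st2 (φ : List Cl) (τ : ℕ → Bool) (i j : ℕ) (h : 2 ≤ ty φ i j) : st φ τ i j ≤ 1 := by
  unfold st
  have h1 := i6_b (τ ((i - 1) / 2))
  by_cases h0 : i = 0 ∨ i = nR φ - 1
  · rw [if_pos h0]
    omega
  · rw [if_neg h0]
    by_cases hj : j = 0
    · rw [if_pos hj]
      exact h1
    · exfalso
      unfold ty at h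
      rw [if_neg hj, if_neg (fun h' => h0 (Or.inl h')), if_neg (fun h' => h0 (Or.inr h'))] at h
      split_ifs at h <;> omega

theorem i6_st4 (φ : List Cl) (τ : ℕ → Bool) (i j : ℕ) (h : 4 ≤ ty φ i j) : st φ τ i j = 0 := by
  unfold st
  by_cases h0 : i = 0 ∨ i = nR φ - 1
  · rw [if_pos h0]
  · exfalso
    unfold ty at h
    rw [if_neg (fun h' => h0 (Or.inl h')), if_neg (fun h' => h0 (Or.inr h')),
      if_neg (fun h' => h0 (Or.inl h')), if_neg (fun h' => h0 (Or.inr h'))] at h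
    split_ifs at h <;> omega

theorem i6_grid (f1 : TaskF1) (h1 : TaskI1) (h4 : TaskI4) (h5 : TaskI5) (hP : PatsOK)
    (hF : FamsOK) (φ : List Cl) (hb : Bounded3 φ) (τ : ℕ → Bool) (hτ : SatBy φ τ) :
    GridOK (nR φ) (nC φ) (ty φ) (st φ τ) pat (fun i j => loc (fam (ty φ i j) (st φ τ i j)))
      (Mset φ) (eAll φ τ) where
  pos := ⟨by have := i6_nR φ; omega, by unfold nC; omega⟩
  pat := fun i _ j _ => hP _ (i6_ty φ i j)
  loc := fun i _ j _ => f1 _ _ _ _ (hP _ (i6_ty φ i j))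
    (hF _ (i6_ty φ i j) _ (i6_st φ τ i j) (i6_st2 φ τ i j) (i6_st4 φ τ i j))
  mem := h1 hP φ
  val := by
    intro i _ j _ x hx y hy
    have e1 : ((62 * (i : ℤ) + (y : ℤ)) / 62).toNat = i := by omega
    have e2 : ((64 * (j : ℤ) + (x : ℤ)) / 64).toNat = j := by omega
    have e3 : ((64 * (j : ℤ) + (x : ℤ)) % 64).toNat = x := by omega
    have e4 : ((62 * (i : ℤ) + (y : ℤ)) % 62).toNat = y := by omega
    unfold eAll
    simp only [e1, e2, e3, e4]
  hc := h4 φ τ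
  vc := h5 φ τ hb hτ
  bl := by
    intro i _ y
    have h : ty φ i 0 = 5 ∨ ty φ i 0 = 7 ∨ ty φ i 0 = 2 ∨ ty φ i 0 = 3 := by
      unfold ty
      rw [if_pos rfl]
      split_ifs <;> simp
    rcases h with h | h | h | h <;> rw [h] <;> rfl
  bb := by
    intro j _ x
    have h : ty φ 0 j = 5 ∨ ty φ 0 j = 4 := by
      unfold ty
      rw [if_pos rfl, if_pos rfl]
      split_ifs <;> simp
    rcases h with h | h <;> rw [h] <;> rfl
  bt := by
    intro j _ x
    have hR := i6_nR φ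
    have h : ty φ (nR φ - 1) j = 7 ∨ ty φ (nR φ - 1) j = 6 := by
      unfold ty
      rw [if_neg (by omega : ¬ (nR φ - 1 = 0)), if_pos rfl, if_neg (by omega : ¬ (nR φ - 1 = 0)),
        if_pos rfl]
      split_ifs <;> simp
    rcases h with h | h <;> rw [h] <;> rfl

/-- completeness -/
theorem i6 (f1 : TaskF1) (f2 : TaskF2) (f4 : TaskF4) (f5 : TaskF5) (h1 : TaskI1) (h4 : TaskI4)
    (h5 : TaskI5) : TaskI6 := by
  intro hP hF φ _ hb hs
  obtain ⟨τ, hτ⟩ := hs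
  have hG := i6_grid f1 h1 h4 h5 hP hF φ hb τ hτ
  have h2 := f2 _ _ _ _ _ _ _ _ hG
  exact ⟨eAll φ τ, ⟨fun q hq => (h2 q hq).1, fun q hq => (h2 q hq).2.1,
    fun q hq => (h2 q hq).2.2, f4 _ _ _ _ _ _ _ _ hG, f5 _ _ _ _ _ _ _ _ hG⟩⟩

end Pool.Agent.W982.TA
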